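import Pool.Agent.Work.MP_f08fab_gt.HNorm

/-!
# Symplectic maps with the same normal form data are equivalent under the Hilden subgroup
-/

set_option autoImplicit false

namespace Pool.Agent.Work.Hild

open Matrix

variable {g : ℕ}

theorem even1_of_cong {φ ψ : W g ≃ₗ[ℤ] W g} (h : ∀ x, ∃ z, φ x = ψ x + (2 : ℤ) • z) :
    Even1 (ψ⁻¹ * φ) := by
  intro x
  obtain ⟨z, hz⟩ := h x
  refine ⟨ψ⁻¹ z, ?_⟩
  rw [LinearEquiv.mul_apply, hz, map_add, map_smul]
  congr 1
  exact ψ.symm_apply_apply x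

theorem compare {φ₁ φ₂ p₁ p₂ q₁ q₂ : W g ≃ₗ[ℤ] W g} (s₁ : IsSymp φ₁) (s₂ : IsSymp φ₂)
    (ps₁ : IsSymp p₁) (pE₁ : PresE p₁) (ps₂ : IsSymp p₂) (pE₂ : PresE p₂)
    (qs₁ : IsSymp q₁) (qE₁ : PresE q₁) (qs₂ : IsSymp q₂) (qE₂ : PresE q₂)
    {δ : Fin g → ℤ} {e : ℤ} (hC₁ : blockC (p₁ * φ₁ * q₁) = diagonal δ)
    (hC₂ : blockC (p₂ * φ₂ * q₂) = diagonal δ)
    (c₁ : ∀ i j, δ j = 0 → blockA (p₁ * φ₁ * q₁) i j = (1 : Matrix (Fin g) (Fin g) ℤ) i j)
    (r₁ : ∀ i j, δ i = 0 → blockA (p₁ * φ₁ * q₁) i j = (1 : Matrix (Fin g) (Fin g) ℤ) i j)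
    (c₂ : ∀ i j, δ j = 0 → blockA (p₂ * φ₂ * q₂) i j = (1 : Matrix (Fin g) (Fin g) ℤ) i j)
    (r₂ : ∀ i j, δ i = 0 → blockA (p₂ * φ₂ * q₂) i j = (1 : Matrix (Fin g) (Fin g) ℤ) i j)
    (hδ : ∀ j, δ j = 0 ∨ δ j ∣ e)
    (hA : ∀ i j, 2 * e ∣ blockA (p₁ * φ₁ * q₁) i j - blockA (p₂ * φ₂ * q₂) i j)
    (hp : Even1 (p₁⁻¹ * p₂)) (hφ : Even1 (φ₂⁻¹ * φ₁)) :
    ∃ h ∈ hilden g, ∃ h' ∈ hilden g, φ₁ = rho g h * φ₂ * rho g h' := by
  classical
  set ψ₁ := p₁ * φ₁ * q₁ with hψ₁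
  set ψ₂ := p₂ * φ₂ * q₂ with hψ₂
  have ss₁ : IsSymp ψ₁ := (ps₁.mul s₁).mul qs₁
  have ss₂ : IsSymp ψ₂ := (ps₂.mul s₂).mul qs₂
  set A₁ := blockA ψ₁ with hA₁
  set A₂ := blockA ψ₂ with hA₂
  have lag' : ∀ {ψ : W g ≃ₗ[ℤ] W g}, IsSymp ψ → blockC ψ = diagonal δ → ∀ i j,
      blockA ψ j i * δ j = δ i * blockA ψ i j := by
    intro ψ hs hC i j
    have h := congrFun (congrFun (lag hs) i) j
    rw [hC, mul_diagonal, diagonal_transpose, diagonal_mul, transpose_apply] at h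
    exact h
  -- the unipotent part
  have hdiv : ∀ i j, ∃ m : ℤ, A₁ i j - A₂ i j = 2 * m * δ j ∧ (δ j = 0 → m = 0) := by
    intro i j
    by_cases hj : δ j = 0
    · exact ⟨0, by rw [c₁ i j hj, c₂ i j hj]; ring, fun _ => rfl⟩
    · obtain ⟨k, hk⟩ := (hδ j).resolve_left hj
      obtain ⟨l, hl⟩ := hA i j
      exact ⟨k * l, by rw [hl, hk]; ring, fun h => absurd h hj⟩
  choose m hm hm0 using hdiv
  set S : Matrix (Fin g) (Fin g) ℤ := Matrix.of fun i j => 2 * m i j with hS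
  have hSC : S * diagonal δ = A₁ - A₂ := by
    ext i j
    rw [mul_diagonal, Matrix.sub_apply, hm i j]
    rfl
  have hSsymm : Sᵀ = S := by
    ext i j
    rw [transpose_apply]
    show 2 * m j i = 2 * m i j
    congr 1
    by_cases hi : δ i = 0
    · rw [hm0 j i hi]
      by_cases hj : δ j = 0
      · rw [hm0 i j hj]
      · have h := hm i j
        rw [r₁ i j hi, r₂ i j hi, sub_self] at h
        have h2 : m i j * (2 * δ j) = 0 := by linarith
        exact ((mul_eq_zero.1 h2).resolve_right (mul_ne_zero two_ne_zero hj)).symm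
    · by_cases hj : δ j = 0
      · rw [hm0 i j hj]
        have h := hm j i
        rw [r₁ j i hj, r₂ j i hj, sub_self] at h
        have h2 : m j i * (2 * δ i) = 0 := by linarith
        exact (mul_eq_zero.1 h2).resolve_right (mul_ne_zero two_ne_zero hi)
      · have l1 := lag' ss₁ hC₁ i j
        have l2 := lag' ss₂ hC₂ i j
        rw [← hA₁] at l1
        rw [← hA₂] at l2
        have h1 := hm i j
        have h2 := hm j i
        have h3 : (A₁ j i - A₂ j i) * δ j = δ i * (A₁ i j - A₂ i j) := by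
          rw [sub_mul, mul_sub, l1, l2]
        rw [h1, h2] at h3
        have h4 : (2 * δ i * δ j) * m j i = (2 * δ i * δ j) * m i j := by linarith
        exact mul_left_cancel₀ (mul_ne_zero (mul_ne_zero two_ne_zero hi) hj) h4
  obtain ⟨u, hu, hur⟩ := even_unis hSsymm (fun i j => ⟨m i j, rfl⟩)
  have hus : IsSymp (uni S) := hur ▸ isSymp_rho u
  have huE : PresE (uni S) := fun x => by rw [uni_apply]
  have hue : Even1 (uni S) := by
    intro x
    refine ⟨((Matrix.of m) *ᵥ x.2, 0), ?_⟩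
    have e1 : S = (2 : ℤ) • Matrix.of m := by
      ext i j
      rw [Matrix.smul_apply, smul_eq_mul]
      rfl
    rw [uni_apply, e1, smul_mulVec]
    refine Prod.ext rfl ?_
    simp
  -- the left factor
  set a := p₁⁻¹ * uni S * p₂ with ha
  have has : IsSymp a := (ps₁.inv.mul hus).mul ps₂
  have haE : PresE a := ((pE₁.inv ps₁).mul huE).mul pE₂
  have hae : Even1 a := by
    have e1 : a = (p₁⁻¹ * uni S * p₁⁻¹⁻¹) * (p₁⁻¹ * p₂) := by rw [ha]; group
    rw [e1]
    exact (hue.conj _).mul hp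
  -- the right factor
  set b := (a * φ₂)⁻¹ * φ₁ with hb
  have hbs : IsSymp b := (has.mul s₂).inv.mul s₁
  have hbe : Even1 b := by
    have e1 : b = (φ₂⁻¹ * a⁻¹ * φ₂⁻¹⁻¹) * (φ₂⁻¹ * φ₁) := by rw [hb]; group
    rw [e1]
    exact (hae.inv.conj _).mul hφ
  have hbE : PresE b := by
    -- `b = q₂ (uni S ψ₂)⁻¹ ψ₁ q₁⁻¹`
    have e1 : b = q₂ * ((uni S * ψ₂)⁻¹ * ψ₁) * q₁⁻¹ := by
      rw [hb, ha, hψ₁, hψ₂]; group
    rw [e1]
    refine (qE₂.mul ?_).mul (qE₁.inv qs₁)
    intro x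
    have e2 : ψ₁ (x, 0) = (uni S * ψ₂) (x, 0) := by
      have e2' : (uni S * ψ₂) (x, 0) = uni S (ψ₂ (x, 0)) := rfl
      rw [e2', apply_E ψ₁, apply_E ψ₂, uni_apply, hC₁, hC₂]
      simp only
      rw [mulVec_mulVec, hSC, ← hA₁, ← hA₂, sub_mulVec]
      refine Prod.ext ?_ rfl
      simp
    rw [LinearEquiv.mul_apply, e2]
    have e3 : (uni S * ψ₂)⁻¹ ((uni S * ψ₂) (x, 0)) = (x, 0) :=
      (uni S * ψ₂).symm_apply_apply _
    rw [e3]
  obtain ⟨h, hh, hhr⟩ := par_mem has hae haE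
  obtain ⟨h', hh', hhr'⟩ := par_mem hbs hbe hbE
  refine ⟨h, hh, h', hh', ?_⟩
  rw [hhr, hhr', hb]
  group

/-! ### a bound for the torsion of the cokernel -/

theorem TorB.mul {e : ℤ} {C D D' V V' : Matrix (Fin g) (Fin g) ℤ} (h : TorB e C)
    (hD : D * D' = 1) (hD' : D' * D = 1) (hV : V * V' = 1) : TorB e (D * C * V) := by
  rintro v ⟨k, hk, x, hx⟩
  obtain ⟨y, hy⟩ := h (D' *ᵥ v) ⟨k, hk, V *ᵥ x, by
    have h1 := congrArg (fun w => D' *ᵥ w) hx
    simp only [mulVec_mulVec, mulVec_smul] at h1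
    rw [mulVec_mulVec]
    rw [← h1, ← Matrix.mul_assoc, ← Matrix.mul_assoc, hD', Matrix.one_mul]⟩
  refine ⟨V' *ᵥ y, ?_⟩
  have h1 : D * C * V * V' = D * C := by rw [Matrix.mul_assoc, hV, Matrix.mul_one]
  rw [mulVec_mulVec, h1, ← mulVec_mulVec, hy, mulVec_smul, mulVec_mulVec, hD, one_mulVec]

theorem TorB.diag {e : ℤ} {δ : Fin g → ℤ} (h : TorB e (diagonal δ)) (j : Fin g) :
    δ j = 0 ∨ δ j ∣ e := by
  by_cases hj : δ j = 0
  · exact Or.inl hj
  · right
    obtain ⟨x, hx⟩ := h (Pi.single j 1) ⟨δ j, hj, Pi.single j 1, by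
      ext i
      rw [mulVec_diagonal]
      simp only [Pi.smul_apply, smul_eq_mul, Pi.single_apply]
      split_ifs with h
      · rw [h]
      · simp⟩
    have h1 := congrFun hx j
    rw [mulVec_diagonal] at h1
    simp only [Pi.smul_apply, smul_eq_mul, Pi.single_eq_same, mul_one] at h1
    exact ⟨x j, h1.symm⟩

theorem exists_torB (C : Matrix (Fin g) (Fin g) ℤ) : ∃ e : ℤ, e ≠ 0 ∧ TorB e C := by
  obtain ⟨D, D', V, V', δ, hD, hD', hV, hV', h⟩ := smith C
  set e : ℤ := ∏ j, if δ j = 0 then 1 else δ j with he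
  have he0 : e ≠ 0 := by
    rw [he]
    refine Finset.prod_ne_zero_iff.2 fun j _ => ?_
    split_ifs with h
    · exact one_ne_zero
    · exact h
  refine ⟨e, he0, ?_⟩
  have h1 : TorB e (diagonal δ) := by
    rintro v ⟨k, hk, x, hx⟩
    have h2 : ∀ j, ∃ y, δ j * y = e * v j := by
      intro j
      have h3 := congrFun hx j
      rw [mulVec_diagonal, Pi.smul_apply, smul_eq_mul] at h3
      by_cases hj : δ j = 0
      · rw [hj, zero_mul] at h3
        have : v j = 0 := (mul_eq_zero.1 h3.symm).resolve_left hk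
        exact ⟨0, by rw [hj, this]; ring⟩
      · have h4 : (if δ j = 0 then 1 else δ j) ∣ e := Finset.dvd_prod_of_mem _ (Finset.mem_univ j)
        rw [if_neg hj] at h4
        obtain ⟨l, hl⟩ := h4
        exact ⟨l * v j, by rw [hl]; ring⟩
    choose y hy using h2
    refine ⟨y, ?_⟩
    ext j
    rw [mulVec_diagonal, hy]
    rfl
  have h2 := h1.mul hD' hD hV'
  rw [← h] at h2
  have h3 : D' * (D * C * V) * V' = C := by
    rw [Matrix.mul_assoc D C V, ← Matrix.mul_assoc D' D, hD', Matrix.one_mul, Matrix.mul_assoc,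
      hV, Matrix.mul_one]
  rw [h3] at h2
  exact h2

theorem torB_hilden {e : ℤ} {β h h' : Braid (2 * g + 1)} (hh : h ∈ hilden g) (hh' : h' ∈ hilden g)
    (H : TorB e (blockC (rho g β))) : TorB e (blockC (rho g (h * β * h'))) := by
  have p := presE_hilden hh
  have p' := presE_hilden hh'
  rw [map_mul, map_mul, blockC_mul p p']
  have inv : ∀ {φ : W g ≃ₗ[ℤ] W g}, IsSymp φ → PresE φ → blockA φ * blockA φ⁻¹ = 1 ∧
      blockD φ * blockD φ⁻¹ = 1 := by
    intro φ hs h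
    constructor
    · apply mat_ext
      intro x
      have h2 : φ (φ⁻¹ (x, 0)) = (x, 0) := φ.apply_symm_apply _
      rw [(h.inv hs).eq, h.eq, mulVec_mulVec] at h2
      rw [one_mulVec]
      exact congrArg Prod.fst h2
    · apply mat_ext
      intro y
      have h2 : φ (φ⁻¹ (0, y)) = (0, y) := φ.apply_symm_apply _
      have h3 := congrArg Prod.snd h2
      rw [h.snd, (h.inv hs).snd, mulVec_mulVec] at h3
      rw [one_mulVec]
      exact h3
  obtain ⟨-, h1⟩ := inv (isSymp_rho h) p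
  obtain ⟨h2, -⟩ := inv (isSymp_rho h') p'
  exact H.mul h1 (mul_eq_one_comm.1 h1) h2

theorem torB_stab {e : ℤ} (M : Matrix (Fin (g + 1)) (Fin (g + 1)) ℤ) (C : Matrix (Fin g) (Fin g) ℤ)
    (h1 : ∀ i j : Fin g, M i.castSucc j.castSucc = C i j)
    (h2 : ∀ j, ∑ i, M i j = if j = Fin.last g then -1 else 0) : TorB e M ↔ TorB e C := by
  -- the coordinates
  have k1 : ∀ x : Fin (g + 1) → ℤ, ∀ i : Fin g, (M *ᵥ x) i.castSucc =
      (C *ᵥ fun j => x j.castSucc) i + M i.castSucc (Fin.last g) * x (Fin.last g) := by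
    intro x i
    rw [mulVec, dotProduct, Fin.sum_univ_castSucc, mulVec, dotProduct]
    simp only [h1]
  have k2 : ∀ x : Fin (g + 1) → ℤ, ∑ i, (M *ᵥ x) i = - x (Fin.last g) := by
    intro x
    have e1 : ∑ i, (M *ᵥ x) i = ∑ j, (∑ i, M i j) * x j := by
      simp only [mulVec, dotProduct]
      rw [Finset.sum_comm]
      exact Finset.sum_congr rfl fun j _ => by rw [Finset.sum_mul]
    rw [e1]
    simp only [h2, ite_mul, neg_mul, one_mul, zero_mul, Finset.sum_ite_eq', Finset.mem_univ,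
      if_true]
  have k3 : ∀ {u v : Fin (g + 1) → ℤ}, (∀ i : Fin g, u i.castSucc = v i.castSucc) →
      ∑ i, u i = ∑ i, v i → u = v := by
    intro u v h h'
    rw [Fin.sum_univ_castSucc, Fin.sum_univ_castSucc, Finset.sum_congr rfl fun i _ => h i] at h'
    ext i
    refine Fin.lastCases ?_ (fun j => h j) i
    linarith
  constructor
  · rintro H v ⟨k, hk, x, hx⟩
    obtain ⟨y, hy⟩ := H (Fin.snoc v (- ∑ i, v i) : Fin (g + 1) → ℤ) ⟨k, hk,
      (Fin.snoc x 0 : Fin (g + 1) → ℤ), by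
        apply k3
        · intro i
          rw [k1]
          simp only [Fin.snoc_castSucc, Fin.snoc_last, mul_zero, add_zero, Pi.smul_apply]
          exact congrFun hx i
        · rw [k2]
          simp only [Fin.snoc_last, Pi.smul_apply, smul_eq_mul, ← Finset.mul_sum]
          rw [Fin.sum_univ_castSucc]
          simp only [Fin.snoc_castSucc, Fin.snoc_last]
          ring⟩
    have h3 := k2 y
    rw [hy] at h3
    simp only [Pi.smul_apply, smul_eq_mul, ← Finset.mul_sum] at h3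
    rw [Fin.sum_univ_castSucc] at h3
    simp only [Fin.snoc_castSucc, Fin.snoc_last] at h3
    have h4 : y (Fin.last g) = 0 := by linarith
    refine ⟨fun j => y j.castSucc, ?_⟩
    ext i
    have h5 := congrFun hy i.castSucc
    rw [k1, h4, mul_zero, add_zero] at h5
    rw [h5]
    simp only [Pi.smul_apply, Fin.snoc_castSucc]
  · rintro H v ⟨k, hk, x, hx⟩
    have h3 := k2 x
    rw [hx] at h3
    simp only [Pi.smul_apply, smul_eq_mul, ← Finset.mul_sum] at h3
    set σ := ∑ i, v i with hσ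
    obtain ⟨y, hy⟩ := H (fun i => v i.castSucc + M i.castSucc (Fin.last g) * σ) ⟨k, hk,
      fun j => x j.castSucc, by
        ext i
        have h5 := congrFun hx i.castSucc
        rw [k1] at h5
        simp only [Pi.smul_apply, smul_eq_mul] at h5 ⊢
        have h6 : x (Fin.last g) = - (k * σ) := by linarith
        rw [h6] at h5
        linarith⟩
    refine ⟨(Fin.snoc y (-(e * σ)) : Fin (g + 1) → ℤ), ?_⟩
    apply k3
    · intro i
      rw [k1]
      simp only [Fin.snoc_castSucc, Fin.snoc_last, Pi.smul_apply, smul_eq_mul]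
      have h5 := congrFun hy i
      simp only [Pi.smul_apply, smul_eq_mul] at h5
      rw [h5]
      ring
    · rw [k2]
      simp only [Fin.snoc_last, Pi.smul_apply, smul_eq_mul, ← Finset.mul_sum]
      rw [← hσ]
      ring

end Pool.Agent.Work.Hild
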