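import Mathlib

/-!
# Plats, the Hilden subgroup and the integral Burau representation at `t = -1`

`Braid m` is the braid group on `m + 1` strands with the Artin generators `σ k`, `k < m`
(`σ k` is usually called `σ_{k+1}`).  The braid group on `2 n` strands, `n = g + 1`, is
`Braid (2 * g + 1)`.
-/

set_option autoImplicit false

namespace Pool.Agent.Work.Hild

open Matrix

/-- the relations of the braid group with `m` Artin generators -/
def braidRels (m : ℕ) : Set (FreeGroup (Fin m)) :=
  {r | ∃ i j : Fin m, i.val + 1 < j.val ∧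
    r = FreeGroup.of i * FreeGroup.of j * (FreeGroup.of j * FreeGroup.of i)⁻¹} ∪
  {r | ∃ i j : Fin m, i.val + 1 = j.val ∧
    r = FreeGroup.of i * FreeGroup.of j * FreeGroup.of i *
      (FreeGroup.of j * FreeGroup.of i * FreeGroup.of j)⁻¹}

/-- the braid group on `m + 1` strands -/
def Braid (m : ℕ) : Type := PresentedGroup (braidRels m)

instance instGroupBraid (m : ℕ) : Group (Braid m) :=
  (inferInstance : Group (PresentedGroup (braidRels m)))

/-- the Artin generators -/
def gen {m : ℕ} (k : Fin m) : Braid m := PresentedGroup.of k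

/-- the generator which twists the strands `2 t + 1` and `2 t + 2` of the braid group on
`2 (g + 1)` strands (`σ_{2t+1}` in the usual numbering) -/
def ga {g : ℕ} (t : Fin (g + 1)) : Braid (2 * g + 1) := gen ⟨2 * t.val, by omega⟩

/-- the generator which twists the strands `2 t + 2` and `2 t + 3` (`σ_{2t+2}` in the usual
numbering) -/
def gf {g : ℕ} (t : Fin g) : Braid (2 * g + 1) := gen ⟨2 * t.val + 1, by omega⟩

/-- `σ_{2i} σ_{2i-1} ^ 2 σ_{2i}` for `i = t + 1` -/
def gm {g : ℕ} (t : Fin g) : Braid (2 * g + 1) :=
  gf t * ga t.castSucc * ga t.castSucc * gf t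

/-- `σ_{2i} σ_{2i-1} σ_{2i+1} σ_{2i}` for `i = t + 1` -/
def gs {g : ℕ} (t : Fin g) : Braid (2 * g + 1) :=
  gf t * ga t.castSucc * ga t.succ * gf t

/-- Birman's generators of the Hilden subgroup: `σ_1`, `σ_2 σ_1 ^ 2 σ_2` and
`σ_{2i} σ_{2i-1} σ_{2i+1} σ_{2i}` -/
def hgens (g : ℕ) : Set (Braid (2 * g + 1)) :=
  {ga 0} ∪ {x | ∃ t : Fin g, t.val = 0 ∧ x = gm t} ∪ {x | ∃ t : Fin g, x = gs t}

/-- the Hilden subgroup of the braid group on `2 (g + 1)` strands -/
def hilden (g : ℕ) : Subgroup (Braid (2 * g + 1)) := Subgroup.closure (hgens g)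

/-- the first homology of the closed surface of genus `g`, with a symplectic basis -/
abbrev W (g : ℕ) : Type := (Fin g → ℤ) × (Fin g → ℤ)

/-- the intersection form -/
def om {g : ℕ} (v w : W g) : ℤ := v.1 ⬝ᵥ w.2 - v.2 ⬝ᵥ w.1

variable {g : ℕ}

theorem om_add (v x y : W g) : om v (x + y) = om v x + om v y := by
  simp only [om, Prod.fst_add, Prod.snd_add, dotProduct_add]; ring

theorem om_add' (v x y : W g) : om (x + y) v = om x v + om y v := by
  simp only [om, Prod.fst_add, Prod.snd_add, add_dotProduct]; ring

theorem om_smul (c : ℤ) (v x : W g) : om v (c • x) = c * om v x := by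
  simp only [om, Prod.smul_fst, Prod.smul_snd, dotProduct_smul, smul_eq_mul]; ring

theorem om_smul' (c : ℤ) (v x : W g) : om (c • x) v = c * om x v := by
  simp only [om, Prod.smul_fst, Prod.smul_snd, smul_dotProduct, smul_eq_mul]; ring

theorem om_anti (v x : W g) : om v x = - om x v := by
  simp only [om, dotProduct_comm]; ring

theorem om_self (v : W g) : om v v = 0 := by
  have := om_anti v v; omega

theorem om_sub (v x y : W g) : om v (x - y) = om v x - om v y := by
  simp only [om, Prod.fst_sub, Prod.snd_sub, dotProduct_sub]; ring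

theorem om_neg (v x : W g) : om v (-x) = - om v x := by
  simp only [om, Prod.fst_neg, Prod.snd_neg, dotProduct_neg]; ring

theorem om_zero (v : W g) : om v 0 = 0 := by
  simp [om]

/-- the transvection with the vector `v` -/
def trv (v : W g) : W g ≃ₗ[ℤ] W g where
  toFun x := x + om v x • v
  map_add' x y := by rw [om_add]; module
  map_smul' c x := by rw [om_smul]; simp only [RingHom.id_apply]; module
  invFun x := x - om v x • v
  left_inv x := by
    simp only [om_add, om_smul, om_self]; module
  right_inv x := by
    simp only [om_sub, om_smul, om_self]; module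

theorem trv_apply (v x : W g) : trv v x = x + om v x • v := rfl

theorem trv_comm {v w : W g} (h : om v w = 0) : trv v * trv w = trv w * trv v := by
  have h' : om w v = 0 := by rw [om_anti, h, neg_zero]
  refine LinearEquiv.ext fun x => ?_
  simp only [LinearEquiv.mul_apply, trv_apply, om_add, om_smul, h, h']
  module

theorem trv_braid {v w : W g} (h : om v w = 1) :
    trv v * trv w * trv v = trv w * trv v * trv w := by
  have h' : om w v = -1 := by rw [om_anti, h]
  refine LinearEquiv.ext fun x => ?_
  simp only [LinearEquiv.mul_apply, trv_apply, om_add, om_smul, h, h', om_self]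
  module

/-- the class of the lift of the arc which joins the points `2 i + 1` and `2 i + 2` -/
def va (g i : ℕ) : Fin g → ℤ := fun t => if i = g then -1 else if t.val = i then 1 else 0

/-- the class of the lift of the arc which joins the points `2 i + 2` and `2 i + 3` -/
def vf (g i : ℕ) : Fin g → ℤ := fun t =>
  (if t.val = i then 1 else 0) - (if t.val = i + 1 then 1 else 0)

/-- the homology classes of the lifts of the arcs which join consecutive points -/
def vec (g k : ℕ) : W g := if k % 2 = 0 then (va g (k / 2), 0) else (0, vf g (k / 2))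

theorem sum_ite_val (i : ℕ) : ∑ t : Fin g, (if t.val = i then (1 : ℤ) else 0) =
    if i < g then 1 else 0 := by
  split_ifs with h
  · rw [Finset.sum_eq_single (⟨i, h⟩ : Fin g)]
    · simp
    · intro b _ hb
      rw [if_neg]
      intro h1
      exact hb (Fin.ext h1)
    · simp
  · apply Finset.sum_eq_zero
    intro t _
    rw [if_neg]
    omega

theorem va_dot (i : ℕ) (hi : i < g) (y : Fin g → ℤ) : va g i ⬝ᵥ y = y ⟨i, hi⟩ := by
  rw [dotProduct, Finset.sum_eq_single (⟨i, hi⟩ : Fin g)]
  · simp [va, hi.ne]
  · intro b _ hb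
    have : b.val ≠ i := fun h => hb (Fin.ext h)
    simp [va, hi.ne, this]
  · simp

theorem va_last_dot (y : Fin g → ℤ) : va g g ⬝ᵥ y = - ∑ t, y t := by
  simp [dotProduct, va]

theorem va_dot_vf {i j : ℕ} (hi : i ≤ g) (hj : j < g) : va g i ⬝ᵥ vf g j =
    (if i = j then 1 else 0) - (if i = j + 1 then 1 else 0) := by
  rcases hi.lt_or_eq with h | h
  · rw [va_dot i h]
    rfl
  · subst h
    rw [va_last_dot]
    simp only [vf, Finset.sum_sub_distrib, sum_ite_val]
    split_ifs <;> omega

theorem om_vec_far {k l : ℕ} (h : k + 1 < l) (hl : l ≤ 2 * g) : om (vec g k) (vec g l) = 0 := by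
  unfold vec om
  split_ifs with h1 h2 h2
  · simp
  · simp only [zero_dotProduct, sub_zero]
    rw [va_dot_vf (by omega) (by omega), if_neg (by omega), if_neg (by omega)]
    ring
  · simp only [zero_dotProduct, zero_sub]
    rw [dotProduct_comm, va_dot_vf (by omega) (by omega), if_neg (by omega), if_neg (by omega)]
    ring
  · simp

theorem om_vec_near {k : ℕ} (hl : k + 1 ≤ 2 * g) : om (vec g k) (vec g (k + 1)) = 1 := by
  unfold vec om
  split_ifs with h1 h2 h2
  · omega
  · simp only [zero_dotProduct, sub_zero]
    rw [va_dot_vf (by omega) (by omega), if_pos (by omega), if_neg (by omega)]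
    ring
  · simp only [zero_dotProduct, zero_sub]
    rw [dotProduct_comm, va_dot_vf (by omega) (by omega), if_neg (by omega), if_pos (by omega)]
    ring
  · omega

/-- the relations hold for the transvections -/
theorem lift_rels (g : ℕ) : ∀ r ∈ braidRels (2 * g + 1),
    FreeGroup.lift (fun k : Fin (2 * g + 1) => trv (vec g k.val)) r = 1 := by
  rintro r (⟨i, j, hij, rfl⟩ | ⟨i, j, hij, rfl⟩)
  · simp only [map_mul, map_inv, FreeGroup.lift_apply_of]
    rw [trv_comm (om_vec_far hij (by omega)), mul_inv_cancel]
  · simp only [map_mul, map_inv, FreeGroup.lift_apply_of]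
    have h : om (vec g i.val) (vec g j.val) = 1 := by
      rw [← hij]; exact om_vec_near (by omega)
    rw [trv_braid h, mul_inv_cancel]

/-- the linear automorphisms of the homology group `W g` -/
def AutW (g : ℕ) : Type := W g ≃ₗ[ℤ] W g

instance instGroupAutW (g : ℕ) : Group (AutW g) :=
  (LinearEquiv.automorphismGroup : Group (W g ≃ₗ[ℤ] W g))

/-- the action of the Artin generators: the transvections with the vectors `vec g k` -/
def genAct (g : ℕ) (k : Fin (2 * g + 1)) : AutW g := trv (vec g k.val)

/-- the action of the words in the Artin generators -/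
def wordAct (g : ℕ) (r : FreeGroup (Fin (2 * g + 1))) : AutW g := FreeGroup.lift (genAct g) r

theorem lift_genAct (g : ℕ) : ∀ r ∈ braidRels (2 * g + 1), wordAct g r = 1 := lift_rels g

/-- the action of the braid group on the homology of the closed surface of genus `g`, the double
cover of the sphere branched in `2 (g + 1)` points (the reduced Burau representation at `t = -1`
modulo its radical): the Artin generators act by the transvections with the vectors `vec g k` -/
noncomputable def homRep (g : ℕ) : Braid (2 * g + 1) →* AutW g :=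
  PresentedGroup.toGroup (f := genAct g) (lift_genAct g)

/-- the representation `homRep` with values in the linear automorphisms -/
noncomputable def rho (g : ℕ) : Braid (2 * g + 1) →* (W g ≃ₗ[ℤ] W g) := homRep g

theorem rho_gen (k : Fin (2 * g + 1)) : rho g (gen k) = trv (vec g k.val) :=
  PresentedGroup.toGroup.of (f := genAct g) (lift_genAct g)

/-- the block of a linear map which sends the first basis half to the second coordinates -/
def blockC (φ : W g ≃ₗ[ℤ] W g) : Matrix (Fin g) (Fin g) ℤ :=
  Matrix.of fun i j => (φ (Pi.single j 1, 0)).2 i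

/-- the integer `e` annihilates the torsion of the cokernel of `C` -/
def TorB (e : ℤ) (C : Matrix (Fin g) (Fin g) ℤ) : Prop :=
  ∀ v : Fin g → ℤ, (∃ k : ℤ, k ≠ 0 ∧ ∃ x, C *ᵥ x = k • v) → ∃ x, C *ᵥ x = e • v

/-- the kernel of the representation `homRep` -/
noncomputable def kerRep (g : ℕ) : Subgroup (Braid (2 * g + 1)) := (homRep g).ker

/-- the block `blockC` of the braid -/
noncomputable def matC {g : ℕ} (β : Braid (2 * g + 1)) : Matrix (Fin g) (Fin g) ℤ :=
  blockC (homRep g β)

/-- the inclusion of the braid group on `m + 1` strands in the braid group on `m + 2` strands -/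
def incl (m : ℕ) : Braid m →* Braid (m + 1) :=
  PresentedGroup.toGroup (f := fun k : Fin m => gen k.castSucc) (by
    rintro r (⟨i, j, hij, rfl⟩ | ⟨i, j, hij, rfl⟩)
    · simp only [map_mul, map_inv, FreeGroup.lift_apply_of]
      exact PresentedGroup.one_of_mem (Or.inl ⟨i.castSucc, j.castSucc, hij, rfl⟩)
    · simp only [map_mul, map_inv, FreeGroup.lift_apply_of]
      exact PresentedGroup.one_of_mem (Or.inr ⟨i.castSucc, j.castSucc, hij, rfl⟩))

theorem incl_gen {m : ℕ} (k : Fin m) : incl m (gen k) = gen k.castSucc :=
  PresentedGroup.toGroup.of _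

/-- the braid with one more strand -/
def addStrand {m : ℕ} (β : Braid m) : Braid (m + 1) := incl m β

/-- the braid with two more strands -/
def up {g : ℕ} (β : Braid (2 * g + 1)) : Braid (2 * (g + 1) + 1) := addStrand (addStrand β)

/-- stabilisation `β ↦ β σ_{2n}` -/
def stabilise {g : ℕ} (β : Braid (2 * g + 1)) : Braid (2 * (g + 1) + 1) :=
  up β * gen ⟨2 * g + 1, by omega⟩

/-- the moves of Birman's theorem: multiplication by elements of the Hilden subgroup on both
sides, and stabilisation -/
inductive Move : (Σ g : ℕ, Braid (2 * g + 1)) → (Σ g : ℕ, Braid (2 * g + 1)) → Prop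
  /-- the same bridge position -/
  | hilden (g : ℕ) (β h h' : Braid (2 * g + 1)) (hh : h ∈ hilden g) (hh' : h' ∈ hilden g) :
      Move ⟨g, β⟩ ⟨g, h * β * h'⟩
  /-- stabilisation -/
  | stab (g : ℕ) (β : Braid (2 * g + 1)) : Move ⟨g, β⟩ ⟨g + 1, stabilise β⟩

/-- the plat closures are the same link (Birman's stable equivalence) -/
def SameLink : (Σ g : ℕ, Braid (2 * g + 1)) → (Σ g : ℕ, Braid (2 * g + 1)) → Prop :=
  Relation.EqvGen Move

/-- the torsion of the cokernel of the block `blockC` of the braid `L.2`, which presents the first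
homology of the double branched cover of the link `L`, is annihilated by `e` -/
def TorLink (e : ℕ) (L : Σ g : ℕ, Braid (2 * g + 1)) : Prop := TorB (e : ℤ) (matC L.2)

/-- the bound for the number of representatives -/
def bound (g e : ℕ) : ℕ := 2 ^ (8 * g ^ 2) * (2 * e + 1) ^ g * (2 * e) ^ (g ^ 2)

/-- the braid `β` on `2 (g + 1)` strands lies in `H s K H`, where `H` is the Hilden subgroup and
`K` is the kernel of `homRep g` -/
def SameModK {g : ℕ} (β s : Braid (2 * g + 1)) : Prop :=
  ∃ k ∈ kerRep g, β ∈ DoubleCoset.doubleCoset (s * k) (hilden g) (hilden g)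

end Pool.Agent.Work.Hild
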