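import Pool.Agent.Work.MP_f08fab_gt.HCmp

/-!
# Finiteness of the bridge positions of a link modulo the kernel of the integral Burau
representation at `t = -1`
-/

set_option autoImplicit false

namespace Pool.Agent.Work.Hild

open Matrix

variable {g : ℕ}

/-- the coordinates of a vector -/
def co (w : W g) : Fin g ⊕ Fin g → ℤ := Sum.elim w.1 w.2

/-- the standard basis -/
def be : Fin g ⊕ Fin g → W g :=
  Sum.elim (fun j => (Pi.single j 1, 0)) (fun j => (0, Pi.single j 1))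

/-- reduction of the matrix of a linear map -/
def red (N : ℕ) (φ : W g ≃ₗ[ℤ] W g) : (Fin g ⊕ Fin g) → (Fin g ⊕ Fin g) → ZMod N :=
  fun a b => ((co (φ (be b)) a : ℤ) : ZMod N)

theorem red_eq {N : ℕ} {φ ψ : W g ≃ₗ[ℤ] W g} (h : red N φ = red N ψ) (x : W g) :
    ∃ z, φ x = ψ x + (N : ℤ) • z := by
  have h1 : ∀ b : Fin g ⊕ Fin g, ∃ z : W g, φ (be b) - ψ (be b) = (N : ℤ) • z := by
    intro b
    have h2 : ∀ a, ∃ m : ℤ, co (φ (be b)) a - co (ψ (be b)) a = N * m := by
      intro a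
      have h3 := congrFun (congrFun h a) b
      unfold red at h3
      have h4 := (ZMod.intCast_eq_intCast_iff_dvd_sub _ _ _).1 h3
      obtain ⟨m, hm⟩ := h4
      exact ⟨-m, by linarith⟩
    choose m hm using h2
    refine ⟨(fun i => m (Sum.inl i), fun i => m (Sum.inr i)), ?_⟩
    refine Prod.ext ?_ ?_
    · ext i
      exact hm (Sum.inl i)
    · ext i
      exact hm (Sum.inr i)
  have hx : x = ∑ j, x.1 j • be (Sum.inl j) + ∑ j, x.2 j • be (Sum.inr j) := by
    refine Prod.ext ?_ ?_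
    · ext t
      simp [be, Prod.fst_sum, Finset.sum_apply, Pi.single_apply]
    · ext t
      simp [be, Prod.snd_sum, Finset.sum_apply, Pi.single_apply]
  let P : Submodule ℤ (W g) := LinearMap.range ((N : ℤ) • (LinearMap.id : W g →ₗ[ℤ] W g))
  have hb : ∀ b : Fin g ⊕ Fin g, φ (be b) - ψ (be b) ∈ P := by
    intro b
    obtain ⟨z, hz⟩ := h1 b
    exact ⟨z, by rw [hz]; rfl⟩
  have key : φ x - ψ x ∈ P := by
    have e : φ x - ψ x = ∑ j, x.1 j • (φ (be (Sum.inl j)) - ψ (be (Sum.inl j))) +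
        ∑ j, x.2 j • (φ (be (Sum.inr j)) - ψ (be (Sum.inr j))) := by
      conv_lhs => rw [hx]
      simp only [map_add, map_sum, map_smul, smul_sub, Finset.sum_sub_distrib]
      abel
    rw [e]
    exact P.add_mem (P.sum_mem fun j _ => P.smul_mem _ (hb _))
      (P.sum_mem fun j _ => P.smul_mem _ (hb _))
  obtain ⟨z, hz⟩ := key
  refine ⟨z, ?_⟩
  have hz' : (N : ℤ) • z = φ x - ψ x := hz
  rw [hz']
  abel

/-- choice of representatives -/
theorem pigeon {α κ : Type*} [Nonempty α] [Fintype κ] (P : α → Prop) (f : α → κ) :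
    ∃ S : Finset α, S.card ≤ Fintype.card κ ∧ (∀ s ∈ S, P s) ∧
      ∀ a, P a → ∃ s ∈ S, f a = f s := by
  classical
  have h : ∀ k : κ, ∃ a : α, (∃ b, P b ∧ f b = k) → P a ∧ f a = k := by
    intro k
    by_cases hk : ∃ b, P b ∧ f b = k
    · obtain ⟨b, hb⟩ := hk
      exact ⟨b, fun _ => hb⟩
    · exact ⟨Classical.arbitrary α, fun h => absurd h hk⟩
  choose r hr using h
  refine ⟨(Finset.univ.filter (fun k => ∃ b, P b ∧ f b = k)).image r,
    Finset.card_image_le.trans (Finset.card_le_univ _), ?_, ?_⟩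
  · intro s hs
    rw [Finset.mem_image] at hs
    obtain ⟨k, hk, rfl⟩ := hs
    rw [Finset.mem_filter] at hk
    exact (hr k hk.2).1
  · intro a ha
    refine ⟨r (f a), ?_, (hr (f a) ⟨a, ha, rfl⟩).2.symm⟩
    rw [Finset.mem_image]
    exact ⟨f a, by rw [Finset.mem_filter]; exact ⟨Finset.mem_univ _, a, ha, rfl⟩, rfl⟩

/-- the torsion bound is invariant -/
theorem torB_iff {e : ℤ} {L L' : Σ g : ℕ, Braid (2 * g + 1)} (h : SameLink L L') :
    TorB e (blockC (rho L.1 L.2)) ↔ TorB e (blockC (rho L'.1 L'.2)) := by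
  induction h with
  | rel x y h =>
    cases h with
    | hilden g β h h' hh hh' =>
      refine ⟨fun H => torB_hilden hh hh' H, fun H => ?_⟩
      have H' := torB_hilden (inv_mem hh) (inv_mem hh') H
      have e1 : h⁻¹ * (h * β * h') * h'⁻¹ = β := by group
      rw [e1] at H'
      exact H'
    | stab g β => exact (torB_stab _ _ (stab_entry β) (stab_sum β)).symm
  | refl x => exact Iff.rfl
  | symm x y _ ih => exact ih.symm
  | trans x y z _ _ ih ih' => exact ih.trans ih'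

theorem finite_det (g : ℕ) (L : Σ g : ℕ, Braid (2 * g + 1)) (hL : linkDet L ≠ 0) :
    ∃ S : Finset (Braid (2 * g + 1)), S.card ≤ (2 * (linkDet L) ^ 2) ^ (4 * g ^ 2) ∧
      (∀ s ∈ S, SameLink ⟨g, s⟩ L) ∧
      ∀ β, SameLink ⟨g, β⟩ L → ∃ s ∈ S, ∃ h ∈ hilden g, ∃ h' ∈ hilden g,
        rho g β = rho g (h * s * h') := by
  set d := linkDet L with hd
  have hd0 : 0 < d := Nat.pos_of_ne_zero hL
  have : NeZero (2 * d ^ 2) := ⟨by positivity⟩
  obtain ⟨S, hc, hS, h⟩ := pigeon (fun β : Braid (2 * g + 1) => SameLink ⟨g, β⟩ L)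
    (fun β => red (2 * d ^ 2) (rho g β))
  refine ⟨S, ?_, hS, ?_⟩
  · refine hc.trans (le_of_eq ?_)
    simp only [Fintype.card_fun, Fintype.card_sum, Fintype.card_fin, ZMod.card]
    rw [← pow_mul]
    congr 1
    ring
  · intro β hβ
    obtain ⟨s, hs, hred⟩ := h β hβ
    refine ⟨s, hs, congr_key hd0 (linkDet_eq (hS s hs)) (linkDet_eq hβ) fun x => ?_⟩
    obtain ⟨z, hz⟩ := red_eq hred x
    exact ⟨z, by rw [hz]; push_cast; rfl⟩

theorem int_eq_of_zmod {E : ℕ} {a b : ℤ} (ha : |a| ≤ E) (hb : |b| ≤ E)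
    (h : ((a : ℤ) : ZMod (2 * E + 1)) = ((b : ℤ) : ZMod (2 * E + 1))) : a = b := by
  have h1 := (ZMod.intCast_eq_intCast_iff_dvd_sub _ _ _).1 h
  rw [abs_le] at ha hb
  have h2 : b - a = 0 := by
    apply Int.eq_zero_of_abs_lt_dvd h1
    rw [abs_lt]
    push_cast
    constructor <;> linarith
  linarith

/-- the bound -/
theorem finite_of_torB (g : ℕ) (L : Σ g : ℕ, Braid (2 * g + 1)) (e : ℕ) (he0 : 0 < e)
    (he : TorB e (blockC (rho L.1 L.2))) :
    ∃ S : Finset (Braid (2 * g + 1)),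
      S.card ≤ 2 ^ (8 * g ^ 2) * (2 * e + 1) ^ g * (2 * e) ^ (g ^ 2) ∧
      (∀ s ∈ S, SameLink ⟨g, s⟩ L) ∧
      ∀ β, SameLink ⟨g, β⟩ L → ∃ s ∈ S, ∃ h ∈ hilden g, ∃ h' ∈ hilden g,
        rho g β = rho g (h * s * h') := by
  have : NeZero (2 * e) := ⟨by positivity⟩
  have : NeZero (2 * e + 1) := ⟨by positivity⟩
  have he0' : (e : ℤ) ≠ 0 := by exact_mod_cast he0.ne'
  -- the normal forms
  have hnf := fun β : Braid (2 * g + 1) => normal_form (isSymp_rho β)
  choose p q ps pE qs qE δ hC hcol hrow using hnf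
  obtain ⟨S, hcard, hS, h⟩ := pigeon (fun β : Braid (2 * g + 1) => SameLink ⟨g, β⟩ L)
    (fun β => (red 2 (p β), red 2 (rho g β),
      (fun j => ((δ β j : ℤ) : ZMod (2 * e + 1)) : Fin g → ZMod (2 * e + 1)),
      (fun i j => ((blockA (p β * rho g β * q β) i j : ℤ) : ZMod (2 * e)) :
        Fin g → Fin g → ZMod (2 * e))))
  refine ⟨S, hcard.trans (le_of_eq ?_), hS, ?_⟩
  · simp only [Fintype.card_prod, Fintype.card_fun, Fintype.card_sum, Fintype.card_fin, ZMod.card]
    rw [← pow_mul, ← pow_mul, ← mul_assoc, ← mul_assoc, ← pow_add]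
    congr 2
    · congr 1
      ring
    · ring
  have hdelta : ∀ β : Braid (2 * g + 1), SameLink ⟨g, β⟩ L → ∀ j,
      δ β j = 0 ∨ δ β j ∣ (e : ℤ) := by
    intro β hβ
    have h1 : TorB e (blockC (rho g β)) := (torB_iff hβ).2 he
    have h2 : TorB e (blockC (p β * rho g β * q β)) := by
      rw [blockC_mul (pE β) (qE β)]
      have inv : ∀ {φ : W g ≃ₗ[ℤ] W g}, IsSymp φ → PresE φ → blockA φ * blockA φ⁻¹ = 1 ∧
          blockD φ * blockD φ⁻¹ = 1 := by
        intro φ hs h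
        constructor
        · apply mat_ext
          intro x
          have h2 : φ (φ⁻¹ (x, 0)) = (x, 0) := φ.apply_symm_apply _
          rw [(h.inv hs).eq, h.eq, mulVec_mulVec] at h2
          rw [one_mulVec]
          exact congrArg Prod.fst h2
        · apply mat_ext
          intro y
          have h2 : φ (φ⁻¹ (0, y)) = (0, y) := φ.apply_symm_apply _
          have h3 := congrArg Prod.snd h2
          rw [h.snd, (h.inv hs).snd, mulVec_mulVec] at h3
          rw [one_mulVec]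
          exact h3
      obtain ⟨-, e1⟩ := inv (ps β) (pE β)
      obtain ⟨e2, -⟩ := inv (qs β) (qE β)
      exact h1.mul e1 (mul_eq_one_comm.1 e1) e2
    rw [hC β] at h2
    exact h2.diag
  have habs : ∀ β : Braid (2 * g + 1), SameLink ⟨g, β⟩ L → ∀ j, |δ β j| ≤ (e : ℤ) := by
    intro β hβ j
    rcases hdelta β hβ j with h1 | h1
    · rw [h1, abs_zero]; positivity
    · have h2 := Int.natAbs_le_of_dvd_ne_zero h1 he0'
      rw [Int.abs_eq_natAbs]
      rw [Int.natAbs_natCast] at h2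
      exact_mod_cast h2
  intro β hβ
  obtain ⟨s, hs, hfs⟩ := h β hβ
  refine ⟨s, hs, ?_⟩
  have hs' := hS s hs
  simp only [Prod.mk.injEq] at hfs
  obtain ⟨f1, f2, f3, f4⟩ := hfs
  have hδ : δ β = δ s := by
    funext j
    exact int_eq_of_zmod (habs β hβ j) (habs s hs' j) (congrFun f3 j)
  have hC2 := hC s
  rw [← hδ] at hC2
  obtain ⟨k, hk, k', hk', hfin⟩ := compare (isSymp_rho β) (isSymp_rho s) (ps β) (pE β) (ps s)
    (pE s) (qs β) (qE β) (qs s) (qE s) (hC β) hC2 (hcol β) (hrow β)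
    (fun i j hj => hcol s i j (by rw [← hδ]; exact hj))
    (fun i j hi => hrow s i j (by rw [← hδ]; exact hi)) (hdelta β hβ) (fun i j => by
      have h4 := (ZMod.intCast_eq_intCast_iff_dvd_sub _ _ _).1 (congrFun (congrFun f4 i) j)
      rw [← Int.dvd_neg, neg_sub]
      push_cast at h4
      exact h4) (even1_of_cong fun x => by
        obtain ⟨z, hz⟩ := red_eq f1.symm x
        exact ⟨z, by rw [hz]; rfl⟩) (even1_of_cong fun x => by
        obtain ⟨z, hz⟩ := red_eq f2 x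
        exact ⟨z, by rw [hz]; rfl⟩)
  exact ⟨k, hk, k', hk', by rw [hfin, map_mul, map_mul]⟩

/-- finiteness for all link types -/
theorem finite_all (g : ℕ) (L : Σ g : ℕ, Braid (2 * g + 1)) :
    ∃ S : Finset (Braid (2 * g + 1)),
      (∀ e : ℕ, 0 < e → TorLink e L → S.card ≤ bound g e) ∧
      (∀ s ∈ S, SameLink ⟨g, s⟩ L) ∧ ∀ β, SameLink ⟨g, β⟩ L → ∃ s ∈ S, SameModK β s := by
  classical
  unfold TorLink
  have hex : ∃ e : ℕ, 0 < e ∧ TorB e (blockC (rho L.1 L.2)) := by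
    obtain ⟨e, he0, he⟩ := exists_torB (blockC (rho L.1 L.2))
    refine ⟨e.natAbs, Int.natAbs_pos.2 he0, ?_⟩
    rcases Int.natAbs_eq e with h | h
    · rw [← h]; exact he
    · have h2 : ((e.natAbs : ℕ) : ℤ) = -e := by linarith
      rw [h2]
      intro v hv
      obtain ⟨x, hx⟩ := he v hv
      exact ⟨-x, by rw [mulVec_neg, hx, neg_smul]⟩
  obtain ⟨h0, h1⟩ := Nat.find_spec hex
  obtain ⟨S, hc, hS, h⟩ := finite_of_torB g L (Nat.find hex) h0 h1
  refine ⟨S, fun e he0 he => hc.trans ?_, hS, fun β hβ => ?_⟩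
  · have h2 : Nat.find hex ≤ e := Nat.find_min' hex ⟨he0, he⟩
    unfold bound
    gcongr
  · obtain ⟨s, hs, k, hk, k', hk', hfin⟩ := h β hβ
    refine ⟨s, hs, k' * (k * s * k')⁻¹ * β * k'⁻¹, ?_, DoubleCoset.mem_doubleCoset.2
      ⟨k, hk, k', hk', by group⟩⟩
    have h3 : rho g (k' * (k * s * k')⁻¹ * β * k'⁻¹) = 1 := by
      rw [map_mul, map_mul, map_mul, hfin, map_inv, map_inv]
      group
    exact h3

end Pool.Agent.Work.Hild
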