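import Pool.Agent.Work.MP_f08fab_gt.HPar

/-!
# Symplectic maps which are congruent modulo `2 d ^ 2`
-/

set_option autoImplicit false

namespace Pool.Agent.Work.Hild

open Matrix

variable {g : ℕ}

/-- the upper left block -/
def blockA (φ : W g ≃ₗ[ℤ] W g) : Matrix (Fin g) (Fin g) ℤ :=
  Matrix.of fun i j => (φ (Pi.single j 1, 0)).1 i

theorem fst_apply (φ : W g ≃ₗ[ℤ] W g) (x : Fin g → ℤ) : (φ (x, 0)).1 = blockA φ *ᵥ x := by
  have h1 : LinearMap.fst ℤ (Fin g → ℤ) (Fin g → ℤ) ∘ₗ (φ : W g →ₗ[ℤ] W g) ∘ₗ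
      LinearMap.inl ℤ (Fin g → ℤ) (Fin g → ℤ) = (blockA φ).mulVecLin := by
    refine LinearMap.pi_ext' fun i => LinearMap.ext_ring ?_
    ext t
    simp [blockA]
  simpa using LinearMap.congr_fun h1 x

theorem snd_apply (φ : W g ≃ₗ[ℤ] W g) (x : Fin g → ℤ) : (φ (x, 0)).2 = blockC φ *ᵥ x := by
  have h1 : LinearMap.snd ℤ (Fin g → ℤ) (Fin g → ℤ) ∘ₗ (φ : W g →ₗ[ℤ] W g) ∘ₗ
      LinearMap.inl ℤ (Fin g → ℤ) (Fin g → ℤ) = (blockC φ).mulVecLin := by
    refine LinearMap.pi_ext' fun i => LinearMap.ext_ring ?_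
    ext t
    simp [blockC]
  simpa using LinearMap.congr_fun h1 x

theorem apply_E (φ : W g ≃ₗ[ℤ] W g) (x : Fin g → ℤ) :
    φ (x, 0) = (blockA φ *ᵥ x, blockC φ *ᵥ x) := Prod.ext (fst_apply φ x) (snd_apply φ x)

theorem mat_ext {M N : Matrix (Fin g) (Fin g) ℤ} (h : ∀ x, M *ᵥ x = N *ᵥ x) : M = N := by
  apply Matrix.ext_of_mulVec_single
  intro i
  exact h _

/-- the image of the Lagrangian is Lagrangian -/
theorem lag {φ : W g ≃ₗ[ℤ] W g} (h : IsSymp φ) :
    (blockA φ)ᵀ * blockC φ = (blockC φ)ᵀ * blockA φ := by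
  ext i j
  have h1 := h (Pi.single i 1, 0) (Pi.single j 1, 0)
  simp only [om, apply_E, mulVec_single_one, dotProduct_zero, zero_dotProduct, sub_zero] at h1
  simp only [Matrix.mul_apply, transpose_apply]
  simp only [dotProduct, Matrix.col_apply] at h1
  linarith

theorem congr_key {s β : Braid (2 * g + 1)} {d : ℕ} (hd : 0 < d)
    (h1 : (blockC (rho g s)).det.natAbs = d) (h2 : (blockC (rho g β)).det.natAbs = d)
    (hc : ∀ x, ∃ z, rho g β x = rho g s x + (2 * (d : ℤ) ^ 2) • z) :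
    ∃ h ∈ hilden g, ∃ h' ∈ hilden g, rho g β = rho g (h * s * h') := by
  set φ := rho g s with hφ
  set ψ := rho g β with hψ
  set A := blockA φ with hA
  set C := blockC φ with hC
  set A' := blockA ψ with hA'
  set C' := blockC ψ with hC'
  have hφs : IsSymp φ := isSymp_rho s
  have hψs : IsSymp ψ := isSymp_rho β
  have hd' : (d : ℤ) ≠ 0 := by exact_mod_cast hd.ne'
  -- the sign of the determinant
  obtain ⟨δ, hδ, hdet⟩ : ∃ δ : ℤ, δ * δ = 1 ∧ C.det = δ * d := by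
    rcases Int.natAbs_eq C.det with h | h
    · exact ⟨1, by norm_num, by rw [h1] at h; rw [h]; ring⟩
    · exact ⟨-1, by norm_num, by rw [h1] at h; rw [h]; ring⟩
  have hdet0 : C.det ≠ 0 := by
    intro h
    rw [h, Int.natAbs_zero] at h1
    omega
  -- the differences
  choose z hz using hc
  set E0 : Matrix (Fin g) (Fin g) ℤ := Matrix.of fun i j => (z (Pi.single j 1, 0)).1 i with hE0
  set Z : Matrix (Fin g) (Fin g) ℤ := Matrix.of fun i j => (z (Pi.single j 1, 0)).2 i with hZ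
  have eA : A' = A + (2 * (d : ℤ) ^ 2) • E0 := by
    ext i j
    have h := congrFun (congrArg Prod.fst (hz (Pi.single j 1, 0))) i
    simpa [hA', hA, blockA, hE0] using h
  have eC : C' = C + (2 * (d : ℤ) ^ 2) • Z := by
    ext i j
    have h := congrFun (congrArg Prod.snd (hz (Pi.single j 1, 0))) i
    simpa [hC', hC, blockC, hZ] using h
  -- the base change
  set V : Matrix (Fin g) (Fin g) ℤ := 1 + (2 * d * δ) • (C.adjugate * Z) with hV
  have hCV : C * V = C' := by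
    rw [hV, Matrix.mul_add, Matrix.mul_one, Matrix.mul_smul, ← Matrix.mul_assoc,
      Matrix.mul_adjugate, Matrix.smul_mul, Matrix.one_mul, smul_smul, eC, hdet]
    congr 2
    linear_combination (2 * (d : ℤ) ^ 2) * hδ
  have hVdet : IsUnit V.det := by
    rw [Int.isUnit_iff_natAbs_eq]
    have h := congrArg Int.natAbs (congrArg Matrix.det hCV)
    rw [det_mul, Int.natAbs_mul, h1, h2] at h
    exact Nat.eq_of_mul_eq_mul_left hd (by rw [h, mul_one])
  obtain ⟨k, hk, hke, hkx⟩ := levi_mem hVdet (by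
    intro i j
    rw [hV]
    simp only [Matrix.add_apply, Matrix.smul_apply, add_sub_cancel_left, smul_eq_mul]
    exact ⟨d * δ * (C.adjugate * Z) i j, by ring⟩)
  have hVV : V * V⁻¹ = 1 := Matrix.mul_nonsing_inv V hVdet
  set ψ' : W g ≃ₗ[ℤ] W g := ψ * (rho g k)⁻¹ with hψ'
  have hψ's : IsSymp ψ' := hψs.mul (isSymp_rho k).inv
  have hψ'x : ∀ x, ψ' (x, 0) = ψ (V⁻¹ *ᵥ x, 0) := by
    intro x
    have e : (rho g k)⁻¹ (x, 0) = (V⁻¹ *ᵥ x, 0) := by
      have e1 := hkx (V⁻¹ *ᵥ x)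
      rw [mulVec_mulVec, hVV, one_mulVec] at e1
      rw [← e1]
      exact (rho g k).symm_apply_apply _
    rw [hψ', LinearEquiv.mul_apply, e]
  have hB : blockA ψ' = A' * V⁻¹ := by
    apply mat_ext
    intro x
    rw [← fst_apply, hψ'x, fst_apply, mulVec_mulVec]
  have hC2 : blockC ψ' = C := by
    apply mat_ext
    intro x
    rw [← snd_apply, hψ'x, snd_apply, mulVec_mulVec, ← hC', ← hCV, Matrix.mul_assoc, hVV,
      Matrix.mul_one]
  set E1 : Matrix (Fin g) (Fin g) ℤ := ((d : ℤ) • E0 - δ • (A * (C.adjugate * Z))) * V⁻¹ with hE1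
  have hBA : A' * V⁻¹ = A + (2 * (d : ℤ)) • E1 := by
    have e1 : A = (A * V) * V⁻¹ := by rw [Matrix.mul_assoc, hVV, Matrix.mul_one]
    conv_rhs => rw [e1]
    rw [hE1, ← Matrix.smul_mul, ← Matrix.add_mul]
    congr 1
    rw [eA, hV, Matrix.mul_add, Matrix.mul_one, Matrix.mul_smul, smul_sub, smul_smul, smul_smul,
      add_assoc]
    congr 1
    rw [add_sub, add_comm, add_sub_assoc, show (2 * (d : ℤ) * δ) = 2 * d * δ from rfl, sub_self,
      add_zero]
    congr 1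
    ring
  set S : Matrix (Fin g) (Fin g) ℤ := (2 * δ) • (E1 * C.adjugate) with hS
  have hSC : S * C = (2 * (d : ℤ)) • E1 := by
    rw [hS, Matrix.smul_mul, Matrix.mul_assoc, Matrix.adjugate_mul, Matrix.mul_smul,
      Matrix.mul_one, smul_smul, hdet]
    congr 1
    linear_combination (2 * (d : ℤ)) * hδ
  have hSsymm : Sᵀ = S := by
    have l1 := lag hφs
    have l2 := lag hψ's
    rw [hB, hC2, hBA, ← hSC] at l2
    rw [← hA, ← hC] at l1
    rw [transpose_add, Matrix.add_mul, Matrix.mul_add, l1, add_right_inj, transpose_mul] at l2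
    -- `Cᵀ Sᵀ C = Cᵀ S C`
    have l3 : Cᵀ.adjugate * (Cᵀ * Sᵀ * C) * C.adjugate = Cᵀ.adjugate * (Cᵀ * (S * C)) * C.adjugate := by
      rw [l2]
    have l4 : Cᵀ.adjugate * (Cᵀ * Sᵀ * C) * C.adjugate = (C.det * C.det) • Sᵀ := by
      calc Cᵀ.adjugate * (Cᵀ * Sᵀ * C) * C.adjugate
          = (Cᵀ.adjugate * Cᵀ) * Sᵀ * (C * C.adjugate) := by simp only [Matrix.mul_assoc]
        _ = _ := by
          rw [Matrix.adjugate_mul, Matrix.mul_adjugate, det_transpose, Matrix.smul_mul,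
            Matrix.one_mul, Matrix.mul_smul, Matrix.mul_one, smul_smul]
    have l5 : Cᵀ.adjugate * (Cᵀ * (S * C)) * C.adjugate = (C.det * C.det) • S := by
      calc Cᵀ.adjugate * (Cᵀ * (S * C)) * C.adjugate
          = (Cᵀ.adjugate * Cᵀ) * S * (C * C.adjugate) := by simp only [Matrix.mul_assoc]
        _ = _ := by
          rw [Matrix.adjugate_mul, Matrix.mul_adjugate, det_transpose, Matrix.smul_mul,
            Matrix.one_mul, Matrix.mul_smul, Matrix.mul_one, smul_smul]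
    rw [l4, l5] at l3
    exact smul_right_injective _ (mul_ne_zero hdet0 hdet0) l3
  obtain ⟨u, hu, hur⟩ := even_unis hSsymm (by
    intro i j
    rw [hS]
    simp only [Matrix.smul_apply, smul_eq_mul]
    exact ⟨δ * (E1 * C.adjugate) i j, by ring⟩)
  -- the second unipotent
  set θ : W g ≃ₗ[ℤ] W g := φ⁻¹ * (uni S)⁻¹ * ψ' with hθ
  have hus : IsSymp (uni S) := hur ▸ isSymp_rho u
  have hθs : IsSymp θ := (hφs.inv.mul hus.inv).mul hψ's
  have hue : Even1 (uni S) := by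
    intro x
    refine ⟨(δ • ((E1 * C.adjugate) *ᵥ x.2), 0), ?_⟩
    have e : ((2 * δ) • (E1 * C.adjugate)) *ᵥ x.2
        = (2 : ℤ) • (δ • ((E1 * C.adjugate) *ᵥ x.2)) := by
      rw [smul_mulVec, smul_smul]
    rw [uni_apply, hS, e]
    refine Prod.ext rfl ?_
    simp
  have hφψ : Even1 (φ⁻¹ * ψ) := by
    intro x
    refine ⟨((d : ℤ) ^ 2) • φ⁻¹ (z x), ?_⟩
    rw [LinearEquiv.mul_apply, hz, map_add, map_smul, smul_smul]
    congr 1
    exact φ.symm_apply_apply x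
  have hθe : Even1 θ := by
    have e : θ = (φ⁻¹ * (uni S)⁻¹ * φ⁻¹⁻¹) * (φ⁻¹ * ψ) * (rho g k)⁻¹ := by
      rw [hθ, hψ']
      group
    rw [e]
    exact ((hue.inv.conj _).mul hφψ).mul hke.inv
  have hθx : ∀ x, θ (x, 0) = (x, 0) := by
    intro x
    have e : ψ' (x, 0) = uni S (φ (x, 0)) := by
      rw [apply_E ψ', hB, hC2, uni_apply, apply_E φ, ← hA, ← hC, mulVec_mulVec, hSC, hBA,
        add_mulVec]
    rw [hθ, LinearEquiv.mul_apply, LinearEquiv.mul_apply, e]
    have e2 : (uni S)⁻¹ (uni S (φ (x, 0))) = φ (x, 0) := (uni S).symm_apply_apply _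
    rw [e2]
    exact φ.symm_apply_apply _
  obtain ⟨v, hv, hvr⟩ := par_mem hθs hθe (fun x => by rw [hθx])
  refine ⟨u, hu, v * k, mul_mem hv hk, ?_⟩
  rw [map_mul, map_mul, map_mul, hur, hvr, ← hφ, hθ, hψ']
  group

end Pool.Agent.Work.Hild
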