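import Pool.Agent.Work.MP_f08fab_gt.HStab

/-!
# Normal forms of symplectic maps under the stabiliser of the Lagrangian
-/

set_option autoImplicit false

namespace Pool.Agent.Work.Hild

open Matrix

variable {g : ℕ}

theorem smith_bases (f : (Fin g → ℤ) →ₗ[ℤ] (Fin g → ℤ)) :
    ∃ (b c : Module.Basis (Fin g) ℤ (Fin g → ℤ)) (δ : Fin g → ℤ), ∀ j, f (b j) = δ j • c j := by
  classical
  obtain ⟨n, bM, bN, emb, a, snf⟩ :=
    Submodule.smithNormalForm (Pi.basisFun ℤ (Fin g)) (LinearMap.range f)
  obtain ⟨k, bK⟩ := Submodule.basisOfPid (Pi.basisFun ℤ (Fin g)) (LinearMap.ker f)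
  have hex : ∀ i, ∃ x, f x = (bN i : Fin g → ℤ) := fun i => (bN i).2
  choose w hw using hex
  let v : Fin k ⊕ Fin n → (Fin g → ℤ) := Sum.elim (fun i => (bK i : Fin g → ℤ)) w
  have hK : ∀ i, f (bK i : Fin g → ℤ) = 0 := fun i => (bK i).2
  have hli : LinearIndependent ℤ v := by
    rw [Fintype.linearIndependent_iff]
    intro c hc
    rw [Fintype.sum_sum_type] at hc
    simp only [v, Sum.elim_inl, Sum.elim_inr] at hc
    have h1 : ∑ i, c (Sum.inr i) • bN i = 0 := by
      apply Subtype.ext
      have h := congrArg f hc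
      simp only [map_add, map_sum, map_smul, hK, hw, smul_zero, Finset.sum_const_zero, zero_add,
        map_zero] at h
      simpa using h
    have h2 := Fintype.linearIndependent_iff.1 bN.linearIndependent _ h1
    have h3 : ∑ i, c (Sum.inl i) • bK i = 0 := by
      apply Subtype.ext
      simp only [h2, zero_smul, Finset.sum_const_zero, add_zero] at hc
      simpa using hc
    have h4 := Fintype.linearIndependent_iff.1 bK.linearIndependent _ h3
    rintro (i | i)
    · exact h4 i
    · exact h2 i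
  have hsp : ⊤ ≤ Submodule.span ℤ (Set.range v) := by
    intro x _
    set y : LinearMap.range f := ⟨f x, x, rfl⟩ with hy
    set z : Fin g → ℤ := ∑ i, bN.repr y i • w i with hz
    have hfz : f z = f x := by
      have h := congrArg (Subtype.val) (bN.sum_repr y)
      rw [hz, map_sum]
      simp only [map_smul, hw]
      simp only [Submodule.coe_sum, Submodule.coe_smul] at h
      rw [h]
    have hk : x - z ∈ LinearMap.ker f := by
      rw [LinearMap.mem_ker, map_sub, hfz, sub_self]
    have h5 := congrArg (Subtype.val) (bK.sum_repr ⟨x - z, hk⟩)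
    have h6 : x = ∑ i, bK.repr ⟨x - z, hk⟩ i • (bK i : Fin g → ℤ) + z := by
      simp only [Submodule.coe_sum, Submodule.coe_smul] at h5
      rw [h5]; abel
    rw [h6]
    refine Submodule.add_mem _ (Submodule.sum_mem _ fun i _ => Submodule.smul_mem _ _
      (Submodule.subset_span ⟨Sum.inl i, rfl⟩)) (Submodule.sum_mem _ fun i _ =>
      Submodule.smul_mem _ _ (Submodule.subset_span ⟨Sum.inr i, rfl⟩))
  let b0 := Module.Basis.mk hli hsp
  let e0 : Fin k ⊕ Fin n ≃ Fin g := b0.indexEquiv (Pi.basisFun ℤ (Fin g))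
  have := Equiv.Perm.isMultiplyPretransitive (Fin g) n
  obtain ⟨π, hπ⟩ := MulAction.exists_smul_eq (Equiv.Perm (Fin g))
    (Function.Embedding.trans ⟨Sum.inr, Sum.inr_injective⟩ e0.toEmbedding : Fin n ↪ Fin g) emb
  have hπ' : ∀ i, π (e0 (Sum.inr i)) = emb i := fun i => by
    have := DFunLike.congr_fun hπ i
    simpa using this
  refine ⟨b0.reindex e0, bM.reindex π.symm, fun j => Sum.elim (fun _ => 0) a (e0.symm j), ?_⟩
  intro j
  obtain ⟨i, rfl⟩ := e0.surjective j
  rw [Module.Basis.reindex_apply, Module.Basis.reindex_apply, Equiv.symm_apply_apply,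
    Module.Basis.mk_apply, Equiv.symm_symm]
  rcases i with i | i
  · simp only [v, Sum.elim_inl, hK, Equiv.symm_apply_apply, zero_smul]
  · simp only [v, Sum.elim_inr, hw, Equiv.symm_apply_apply, hπ', snf]

/-- Smith normal form of a square integer matrix -/
theorem smith (C : Matrix (Fin g) (Fin g) ℤ) : ∃ D D' V V' : Matrix (Fin g) (Fin g) ℤ,
    ∃ δ : Fin g → ℤ, D * D' = 1 ∧ D' * D = 1 ∧ V * V' = 1 ∧ V' * V = 1 ∧
      D * C * V = diagonal δ := by
  obtain ⟨b, c, δ, h⟩ := smith_bases C.mulVecLin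
  refine ⟨LinearMap.toMatrix' c.equivFun.toLinearMap,
    LinearMap.toMatrix' c.equivFun.symm.toLinearMap,
    LinearMap.toMatrix' b.equivFun.symm.toLinearMap,
    LinearMap.toMatrix' b.equivFun.toLinearMap, δ, ?_, ?_, ?_, ?_, ?_⟩
  · rw [← LinearMap.toMatrix'_comp, LinearEquiv.comp_symm, LinearMap.toMatrix'_id]
  · rw [← LinearMap.toMatrix'_comp, LinearEquiv.symm_comp, LinearMap.toMatrix'_id]
  · rw [← LinearMap.toMatrix'_comp, LinearEquiv.symm_comp, LinearMap.toMatrix'_id]
  · rw [← LinearMap.toMatrix'_comp, LinearEquiv.comp_symm, LinearMap.toMatrix'_id]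
  · apply Matrix.ext_of_mulVec_single
    intro j
    rw [← mulVec_mulVec, ← mulVec_mulVec, LinearMap.toMatrix'_mulVec, LinearMap.toMatrix'_mulVec]
    have e1 : (b.equivFun.symm.toLinearMap) (Pi.single j 1) = b j := by
      rw [LinearEquiv.coe_coe, LinearEquiv.symm_apply_eq]
      rw [Module.Basis.equivFun_apply, Module.Basis.repr_self, Finsupp.single_eq_pi_single]
    have e2 := h j
    rw [mulVecLin_apply] at e2
    rw [e1, e2, map_smul, LinearEquiv.coe_coe, Module.Basis.equivFun_apply,
      Module.Basis.repr_self, Finsupp.single_eq_pi_single]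
    ext i
    rw [mulVec_single_one]
    simp only [Pi.smul_apply, smul_eq_mul, Matrix.col_apply, diagonal_apply, Pi.single_apply]
    split_ifs with h1
    · subst h1; ring
    · ring

/-- the Levi maps -/
def lev (V V' : Matrix (Fin g) (Fin g) ℤ) (h : V * V' = 1) (h' : V' * V = 1) :
    W g ≃ₗ[ℤ] W g where
  toFun w := (V *ᵥ w.1, V'ᵀ *ᵥ w.2)
  map_add' x y := by
    simp only [Prod.fst_add, Prod.snd_add, mulVec_add, Prod.mk_add_mk]
  map_smul' c x := by
    simp only [Prod.smul_fst, Prod.smul_snd, mulVec_smul, RingHom.id_apply, Prod.smul_mk]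
  invFun w := (V' *ᵥ w.1, Vᵀ *ᵥ w.2)
  left_inv x := by
    simp only [mulVec_mulVec, h', ← transpose_mul, transpose_one, one_mulVec]
  right_inv x := by
    simp only [mulVec_mulVec, h, ← transpose_mul, transpose_one, one_mulVec]

theorem lev_apply (V V' : Matrix (Fin g) (Fin g) ℤ) (h : V * V' = 1) (h' : V' * V = 1)
    (w : W g) : lev V V' h h' w = (V *ᵥ w.1, V'ᵀ *ᵥ w.2) := rfl

theorem lev_symp (V V' : Matrix (Fin g) (Fin g) ℤ) (h : V * V' = 1) (h' : V' * V = 1) :
    IsSymp (lev V V' h h') := by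
  intro x y
  have e : ∀ a b : Fin g → ℤ, (V *ᵥ a) ⬝ᵥ (V'ᵀ *ᵥ b) = a ⬝ᵥ b := by
    intro a b
    rw [dotProduct_mulVec, vecMul_transpose, mulVec_mulVec, h', one_mulVec]
  unfold om
  rw [lev_apply, lev_apply]
  simp only
  rw [e, dotProduct_comm (V'ᵀ *ᵥ x.2), e, dotProduct_comm y.1]

theorem lev_presE (V V' : Matrix (Fin g) (Fin g) ℤ) (h : V * V' = 1) (h' : V' * V = 1) :
    PresE (lev V V' h h') := by
  intro x
  rw [lev_apply]
  simp

theorem blockA_lev (V V' : Matrix (Fin g) (Fin g) ℤ) (h : V * V' = 1) (h' : V' * V = 1) :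
    blockA (lev V V' h h') = V := by
  apply mat_ext
  intro x
  rw [← fst_apply, lev_apply]

theorem blockD_lev (V V' : Matrix (Fin g) (Fin g) ℤ) (h : V * V' = 1) (h' : V' * V = 1) :
    blockD (lev V V' h h') = V'ᵀ := by
  apply mat_ext
  intro x
  rw [← snd_apply', lev_apply]

theorem blockC_mul {p q : W g ≃ₗ[ℤ] W g} (hp : PresE p) (hq : PresE q) (φ : W g ≃ₗ[ℤ] W g) :
    blockC (p * φ * q) = blockD p * blockC φ * blockA q := by
  apply mat_ext
  intro x
  rw [← snd_apply, LinearEquiv.mul_apply, LinearEquiv.mul_apply, hq.eq, hp.snd,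
    snd_apply, mulVec_mulVec, mulVec_mulVec]

theorem blockA_mul {q : W g ≃ₗ[ℤ] W g} (V V' : Matrix (Fin g) (Fin g) ℤ) (h : V * V' = 1)
    (h' : V' * V = 1) (hq : PresE q) (φ : W g ≃ₗ[ℤ] W g) :
    blockA (lev V V' h h' * φ * q) = V * blockA φ * blockA q := by
  apply mat_ext
  intro x
  rw [← fst_apply, LinearEquiv.mul_apply, LinearEquiv.mul_apply, hq.eq, lev_apply]
  simp only
  rw [fst_apply, mulVec_mulVec, mulVec_mulVec]

/-- the upper right block -/
def blockB (φ : W g ≃ₗ[ℤ] W g) : Matrix (Fin g) (Fin g) ℤ :=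
  Matrix.of fun i j => (φ (0, Pi.single j 1)).1 i

theorem fst_apply' (φ : W g ≃ₗ[ℤ] W g) (y : Fin g → ℤ) : (φ (0, y)).1 = blockB φ *ᵥ y := by
  have h1 : LinearMap.fst ℤ (Fin g → ℤ) (Fin g → ℤ) ∘ₗ (φ : W g →ₗ[ℤ] W g) ∘ₗ
      LinearMap.inr ℤ (Fin g → ℤ) (Fin g → ℤ) = (blockB φ).mulVecLin := by
    refine LinearMap.pi_ext' fun i => LinearMap.ext_ring ?_
    ext t
    simp [blockB]
  simpa using LinearMap.congr_fun h1 y

theorem left_inverse (φ : W g ≃ₗ[ℤ] W g) :
    blockA φ⁻¹ * blockA φ + blockB φ⁻¹ * blockC φ = 1 := by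
  apply mat_ext
  intro x
  have h : φ⁻¹ (φ (x, 0)) = (x, 0) := φ.symm_apply_apply _
  have e : φ (x, 0) = (blockA φ *ᵥ x, 0) + (0, blockC φ *ᵥ x) := by
    rw [apply_E]; simp
  rw [e, map_add] at h
  have h2 := congrArg Prod.fst h
  rw [Prod.fst_add, fst_apply, fst_apply', mulVec_mulVec, mulVec_mulVec] at h2
  rw [add_mulVec, h2, one_mulVec]

/-- the normal form -/
theorem normal_form {φ : W g ≃ₗ[ℤ] W g} (hs : IsSymp φ) : ∃ p q : W g ≃ₗ[ℤ] W g,
    IsSymp p ∧ PresE p ∧ IsSymp q ∧ PresE q ∧ ∃ δ : Fin g → ℤ,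
      blockC (p * φ * q) = diagonal δ ∧
      (∀ i j, δ j = 0 → blockA (p * φ * q) i j = (1 : Matrix (Fin g) (Fin g) ℤ) i j) ∧
      (∀ i j, δ i = 0 → blockA (p * φ * q) i j = (1 : Matrix (Fin g) (Fin g) ℤ) i j) := by
  classical
  obtain ⟨D, D', V, V', δ, hD, hD', hV, hV', hsm⟩ := smith (blockC φ)
  have hDt : D'ᵀ * Dᵀ = 1 := by rw [← transpose_mul, hD, transpose_one]
  have hDt' : Dᵀ * D'ᵀ = 1 := by rw [← transpose_mul, hD', transpose_one]
  set p := lev D'ᵀ Dᵀ hDt hDt' with hp
  set q0 := lev V V' hV hV' with hq0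
  have hps : IsSymp p := lev_symp _ _ _ _
  have hpE : PresE p := lev_presE _ _ _ _
  have hqs : IsSymp q0 := lev_symp _ _ _ _
  have hqE : PresE q0 := lev_presE _ _ _ _
  set φ0 := p * φ * q0 with hφ0
  have hφ0s : IsSymp φ0 := (hps.mul hs).mul hqs
  have hC0 : blockC φ0 = diagonal δ := by
    rw [hφ0, blockC_mul hpE hqE, hp, hq0, blockD_lev, blockA_lev, transpose_transpose, hsm]
  set A := blockA φ0 with hA
  have hlag : ∀ i j, A j i * δ j = δ i * A i j := by
    intro i j
    have h := congrFun (congrFun (lag hφ0s) i) j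
    rw [hC0, ← hA, mul_diagonal, diagonal_transpose, diagonal_mul, transpose_apply] at h
    exact h
  have h12 : ∀ i j, δ i ≠ 0 → δ j = 0 → A i j = 0 := by
    intro i j hi hj
    have h := hlag i j
    rw [hj, mul_zero] at h
    exact (mul_eq_zero.1 h.symm).resolve_left hi
  set X := blockA φ0⁻¹ with hX
  set Y := blockB φ0⁻¹ with hY
  have hXY : ∀ i j, ∑ k, X i k * A k j + Y i j * δ j = (1 : Matrix (Fin g) (Fin g) ℤ) i j := by
    intro i j
    have h := congrFun (congrFun (left_inverse φ0) i) j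
    rw [hC0, ← hA, ← hX, ← hY, Matrix.add_apply, mul_diagonal, Matrix.mul_apply] at h
    exact h
  -- the unimodular matrix
  let U : Matrix (Fin g) (Fin g) ℤ := Matrix.of fun i j =>
    if δ i = 0 then A i j else (1 : Matrix (Fin g) (Fin g) ℤ) i j
  let T : Matrix (Fin g) (Fin g) ℤ := Matrix.of fun i j =>
    if δ i = 0 then (if δ j = 0 then X i j else
      (∑ k, if δ k = 0 then 0 else X i k * A k j) + Y i j * δ j)
    else (1 : Matrix (Fin g) (Fin g) ℤ) i j
  have hTU : T * U = 1 := by
    ext i j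
    rw [Matrix.mul_apply]
    by_cases hi : δ i = 0
    · by_cases hj : δ j = 0
      · have e1 : ∀ k, T i k * U k j = X i k * A k j := by
          intro k
          simp only [T, U, Matrix.of_apply, hi, if_true]
          by_cases hk : δ k = 0
          · simp only [hk, if_true]
          · have hkj : k ≠ j := fun h => hk (h ▸ hj)
            simp only [hk, if_false, Matrix.one_apply_ne hkj, h12 k j hk hj, mul_zero]
        rw [Finset.sum_congr rfl fun k _ => e1 k]
        have := hXY i j
        rw [hj, mul_zero, add_zero] at this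
        exact this
      · have e1 : ∀ k, T i k * U k j = (if δ k = 0 then X i k * A k j else 0) +
            (if k = j then T i j else 0) := by
          intro k
          by_cases hk : δ k = 0
          · have hkj : k ≠ j := fun h => hj (h ▸ hk)
            simp only [T, U, Matrix.of_apply, hi, hk, if_true, hkj, if_false, add_zero]
          · by_cases hkj : k = j
            · subst hkj
              simp only [U, Matrix.of_apply, hk, if_false, if_true, Matrix.one_apply_eq, mul_one,
                zero_add]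
            · simp only [U, Matrix.of_apply, hk, if_false, hkj, Matrix.one_apply_ne hkj, mul_zero,
                add_zero]
        rw [Finset.sum_congr rfl fun k _ => e1 k, Finset.sum_add_distrib, Finset.sum_ite_eq',
          if_pos (Finset.mem_univ _)]
        have e2 : T i j = (∑ k, if δ k = 0 then 0 else X i k * A k j) + Y i j * δ j := by
          simp only [T, Matrix.of_apply, hi, hj, if_true, if_false]
        rw [e2, ← add_assoc, ← Finset.sum_add_distrib, ← hXY i j]
        congr 1
        refine Finset.sum_congr rfl fun k _ => ?_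
        split_ifs <;> ring
    · have e1 : ∀ k, T i k * U k j = (1 : Matrix (Fin g) (Fin g) ℤ) i k * U k j := by
        intro k
        simp only [T, Matrix.of_apply, hi, if_false]
      rw [Finset.sum_congr rfl fun k _ => e1 k, ← Matrix.mul_apply, Matrix.one_mul]
      simp only [U, Matrix.of_apply, hi, if_false]
  have hUT : U * T = 1 := mul_eq_one_comm.1 hTU
  -- the normal form
  let A1 : Matrix (Fin g) (Fin g) ℤ := Matrix.of fun i j =>
    if δ i = 0 then (1 : Matrix (Fin g) (Fin g) ℤ) i j else A i j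
  have hA1 : A1 * U = A := by
    ext i j
    rw [Matrix.mul_apply]
    by_cases hi : δ i = 0
    · have e1 : ∀ k, A1 i k * U k j = (1 : Matrix (Fin g) (Fin g) ℤ) i k * U k j := by
        intro k
        simp only [A1, Matrix.of_apply, hi, if_true]
      rw [Finset.sum_congr rfl fun k _ => e1 k, ← Matrix.mul_apply, Matrix.one_mul]
      simp only [U, Matrix.of_apply, hi, if_true]
    · have e1 : ∀ k, A1 i k * U k j = A i k * (1 : Matrix (Fin g) (Fin g) ℤ) k j := by
        intro k
        simp only [A1, U, Matrix.of_apply, hi, if_false]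
        by_cases hk : δ k = 0
        · rw [h12 i k hi hk]; ring
        · simp only [hk, if_false]
      rw [Finset.sum_congr rfl fun k _ => e1 k, ← Matrix.mul_apply, Matrix.mul_one]
  have hAT : A * T = A1 := by
    rw [← hA1, Matrix.mul_assoc, hUT, Matrix.mul_one]
  have hΔU : diagonal δ * U = diagonal δ := by
    ext i j
    rw [diagonal_mul, diagonal_apply]
    by_cases hi : δ i = 0
    · rw [hi, zero_mul]; split_ifs <;> rfl
    · simp only [U, Matrix.of_apply, hi, if_false, Matrix.one_apply]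
      split_ifs <;> ring
  have hΔT : diagonal δ * T = diagonal δ := by
    conv_lhs => rw [← hΔU]
    rw [Matrix.mul_assoc, hUT, Matrix.mul_one]
  set q1 := lev T U hTU hUT with hq1
  have hq1s : IsSymp q1 := lev_symp _ _ _ _
  have hq1E : PresE q1 := lev_presE _ _ _ _
  have hq1A : blockA q1 = T := by rw [hq1, blockA_lev]
  have hC1 : blockC (p * φ * (q0 * q1)) = diagonal δ := by
    have e : p * φ * (q0 * q1) = 1 * φ0 * q1 := by rw [hφ0, one_mul, mul_assoc (p * φ)]
    have h1 : PresE (1 : W g ≃ₗ[ℤ] W g) := fun x => rfl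
    have h2 : blockD (1 : W g ≃ₗ[ℤ] W g) = 1 := by
      apply mat_ext
      intro x
      rw [← snd_apply', one_mulVec]; rfl
    rw [e, blockC_mul h1 hq1E, h2, Matrix.one_mul, hC0, hq1A, hΔT]
  have hA2 : blockA (p * φ * (q0 * q1)) = A1 := by
    have e : p * φ * (q0 * q1) = φ0 * q1 := by rw [hφ0, mul_assoc (p * φ)]
    rw [e, ← hAT]
    apply mat_ext
    intro x
    rw [← fst_apply, LinearEquiv.mul_apply, hq1E.eq, fst_apply, hq1A, mulVec_mulVec]
  refine ⟨p, q0 * q1, hps, hpE, hqs.mul hq1s, hqE.mul hq1E, δ, hC1, ?_, ?_⟩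
  · intro i j hj
    rw [hA2]
    by_cases hi : δ i = 0
    · simp only [A1, Matrix.of_apply, hi, if_true]
    · have hij : i ≠ j := fun h => hi (h ▸ hj)
      simp only [A1, Matrix.of_apply, hi, if_false, h12 i j hi hj, Matrix.one_apply_ne hij]
  · intro i j hi
    rw [hA2]
    simp only [A1, Matrix.of_apply, hi, if_true]

end Pool.Agent.Work.Hild
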