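import Pool.Agent.Work.MP_f08fab_gt.HUni

/-!
# The level two part of the stabiliser of the Lagrangian
-/

set_option autoImplicit false

namespace Pool.Agent.Work.Hild

open Matrix

variable {g : ℕ}

/-- a map which fixes the Lagrangian pointwise is unipotent -/
theorem exists_uni {ψ : W g ≃ₗ[ℤ] W g} (hs : IsSymp ψ) (hfix : ∀ x, ψ (x, 0) = (x, 0)) :
    ∃ S : Matrix (Fin g) (Fin g) ℤ, Sᵀ = S ∧ ψ = uni S := by
  have hsnd : ∀ y, (ψ (0, y)).2 = y := by
    intro y
    ext i
    have h := hs (Pi.single i 1, 0) (0, y)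
    rw [hfix] at h
    simpa [om] using h
  set S : Matrix (Fin g) (Fin g) ℤ := Matrix.of fun i j => (ψ (0, Pi.single j 1)).1 i with hS
  have hlin : ∀ y, (ψ (0, y)).1 = S *ᵥ y := by
    intro y
    have h1 : LinearMap.fst ℤ (Fin g → ℤ) (Fin g → ℤ) ∘ₗ (ψ : W g →ₗ[ℤ] W g) ∘ₗ
        LinearMap.inr ℤ (Fin g → ℤ) (Fin g → ℤ) = S.mulVecLin := by
      refine LinearMap.pi_ext' fun i => LinearMap.ext_ring ?_
      ext t
      simp [hS]
    simpa using LinearMap.congr_fun h1 y
  refine ⟨S, ?_, ?_⟩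
  · ext i j
    have h := hs (0, Pi.single i 1) (0, Pi.single j 1)
    simp only [om, hsnd, hlin, zero_dotProduct, dotProduct_zero, sub_zero] at h
    rw [mulVec_single_one, mulVec_single_one, dotProduct_single_one, single_one_dotProduct] at h
    simp only [Matrix.col_apply] at h
    rw [transpose_apply]
    omega
  · refine LinearEquiv.ext fun w => ?_
    have h1 : w = (w.1, 0) + (0, w.2) := by simp
    conv_lhs => rw [h1]
    rw [map_add, hfix, uni_apply]
    ext t
    · simp [hlin]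
    · simp [hsnd]

theorem Even1.two_dvd {φ : W g ≃ₗ[ℤ] W g} (h : Even1 φ) (x : W g) (i : Fin g) :
    (2 : ℤ) ∣ (φ x).1 i - x.1 i ∧ (2 : ℤ) ∣ (φ x).2 i - x.2 i := by
  obtain ⟨z, hz⟩ := h x
  rw [hz]
  exact ⟨⟨z.1 i, by simp⟩, ⟨z.2 i, by simp⟩⟩

/-- the level two part of the stabiliser of the Lagrangian lies in the image of the Hilden
subgroup -/
theorem par_mem {φ : W g ≃ₗ[ℤ] W g} (hs : IsSymp φ) (he : Even1 φ)
    (hE : ∀ x, (φ (x, 0)).2 = 0) : ∃ h ∈ hilden g, rho g h = φ := by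
  have hinv : ∀ z, φ (φ⁻¹ z) = z := fun z => φ.apply_symm_apply z
  have hinv' : ∀ z, φ⁻¹ (φ z) = z := fun z => φ.symm_apply_apply z
  -- the inverse preserves the Lagrangian
  have hE' : ∀ x, (φ⁻¹ (x, 0)).2 = 0 := by
    intro x
    ext i
    have h := hs (φ⁻¹ (x, 0)) (Pi.single i 1, 0)
    rw [hinv] at h
    simp only [om, hE, dotProduct_zero, zero_dotProduct, sub_zero, zero_sub] at h
    simpa using h.symm
  set A : Matrix (Fin g) (Fin g) ℤ := Matrix.of fun i j => (φ (Pi.single j 1, 0)).1 i with hA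
  set A' : Matrix (Fin g) (Fin g) ℤ := Matrix.of fun i j => (φ⁻¹ (Pi.single j 1, 0)).1 i with hA'
  have h1 : ∀ x, φ (x, 0) = (A *ᵥ x, 0) := by
    refine ext_E fun i => ?_
    ext t
    · simp [hA, mulVec_single_one]
    · simp [hE]
  have h2 : ∀ x, φ⁻¹ (x, 0) = (A' *ᵥ x, 0) := by
    refine ext_E fun i => ?_
    ext t
    · simp [hA', mulVec_single_one]
    · rw [hE']
  have hAA : A * A' = 1 := by
    apply Matrix.ext_of_mulVec_single
    intro i
    have h3 := hinv (Pi.single i 1, 0)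
    rw [h2, h1] at h3
    rw [← mulVec_mulVec, one_mulVec]
    exact congrArg Prod.fst h3
  have hdet : IsUnit A.det := by
    have := congrArg Matrix.det hAA
    rw [det_mul, det_one] at this
    exact IsUnit.of_mul_eq_one _ this
  obtain ⟨h, hh, hev, hx⟩ := levi_mem hdet (by
    intro i j
    have := (he.two_dvd (Pi.single j 1, 0) i).1
    rw [Matrix.one_apply]
    simpa [hA, Pi.single_apply] using this)
  -- the rest is unipotent
  set ψ : W g ≃ₗ[ℤ] W g := (rho g h)⁻¹ * φ with hψ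
  have hψs : IsSymp ψ := (isSymp_rho h).inv.mul hs
  have hψe : Even1 ψ := hev.inv.mul he
  have hψf : ∀ x, ψ (x, 0) = (x, 0) := by
    intro x
    rw [hψ, LinearEquiv.mul_apply, h1, ← hx]
    exact (rho g h).symm_apply_apply _
  obtain ⟨S, hS, hu⟩ := exists_uni hψs hψf
  obtain ⟨k, hk, hkr⟩ := even_unis hS (by
    intro i j
    have := (hψe.two_dvd (0, Pi.single j 1) i).1
    rw [hu, uni_apply, mulVec_single_one] at this
    simpa using this)
  refine ⟨h * k, mul_mem hh hk, ?_⟩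
  rw [map_mul, hkr, ← hu, hψ, mul_inv_cancel_left]

end Pool.Agent.Work.Hild
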