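import Pool.Agent.Work.MP_f08fab_gt.HDefs

/-!
# The action of the Hilden subgroup on the Lagrangian
-/

set_option autoImplicit false

namespace Pool.Agent.Work.Hild

open Matrix

variable {g : ℕ}

/-- the form is preserved -/
def IsSymp (φ : W g ≃ₗ[ℤ] W g) : Prop := ∀ x y, om (φ x) (φ y) = om x y

theorem IsSymp.mul {φ ψ : W g ≃ₗ[ℤ] W g} (h : IsSymp φ) (h' : IsSymp ψ) : IsSymp (φ * ψ) :=
  fun x y => by rw [LinearEquiv.mul_apply, LinearEquiv.mul_apply, h, h']

theorem IsSymp.one : IsSymp (1 : W g ≃ₗ[ℤ] W g) := fun _ _ => rfl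

theorem IsSymp.inv {φ : W g ≃ₗ[ℤ] W g} (h : IsSymp φ) : IsSymp φ⁻¹ := fun x y => by
  have h1 := h (φ⁻¹ x) (φ⁻¹ y)
  have h2 : ∀ z, φ (φ⁻¹ z) = z := fun z => φ.apply_symm_apply z
  rw [h2, h2] at h1
  exact h1.symm

theorem isSymp_trv (v : W g) : IsSymp (trv v) := fun x y => by
  simp only [trv_apply, om_add, om_add', om_smul, om_smul', om_self]
  rw [om_anti x v]
  ring

theorem braid_induction {m : ℕ} {p : Braid m → Prop} (h1 : p 1) (hg : ∀ k, p (gen k))
    (hm : ∀ x y, p x → p y → p (x * y)) (hi : ∀ x, p x → p x⁻¹) (β : Braid m) : p β := by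
  have h : β ∈ Subgroup.closure (Set.range (PresentedGroup.of (rels := braidRels m))) := by
    rw [PresentedGroup.closure_range_of]; trivial
  induction h using Subgroup.closure_induction with
  | mem x hx => obtain ⟨k, rfl⟩ := hx; exact hg k
  | one => exact h1
  | mul x y _ _ hx hy => exact hm x y hx hy
  | inv x _ hx => exact hi x hx

theorem isSymp_rho (β : Braid (2 * g + 1)) : IsSymp (rho g β) := by
  refine braid_induction (p := fun β => IsSymp (rho g β)) ?_ ?_ ?_ ?_ β
  · rw [map_one]; exact IsSymp.one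
  · intro k; rw [rho_gen]; exact isSymp_trv _
  · intro x y hx hy; rw [map_mul]; exact hx.mul hy
  · intro x hx; rw [map_inv]; exact hx.inv

/-- congruent to the identity modulo `2` -/
def Even1 (φ : W g ≃ₗ[ℤ] W g) : Prop := ∀ x, ∃ z, φ x = x + (2 : ℤ) • z

theorem Even1.one : Even1 (1 : W g ≃ₗ[ℤ] W g) := fun x => ⟨0, by simp⟩

theorem Even1.mul {φ ψ : W g ≃ₗ[ℤ] W g} (h : Even1 φ) (h' : Even1 ψ) : Even1 (φ * ψ) := fun x => by
  obtain ⟨z, hz⟩ := h' x
  obtain ⟨w, hw⟩ := h (ψ x)
  refine ⟨w + z, ?_⟩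
  rw [LinearEquiv.mul_apply, hw, hz]
  module

theorem Even1.inv {φ : W g ≃ₗ[ℤ] W g} (h : Even1 φ) : Even1 φ⁻¹ := fun x => by
  obtain ⟨z, hz⟩ := h (φ⁻¹ x)
  have h2 : φ (φ⁻¹ x) = x := φ.apply_symm_apply x
  rw [h2] at hz
  exact ⟨-z, by conv_rhs => rw [hz]
                module⟩

theorem Even1.conj {φ : W g ≃ₗ[ℤ] W g} (h : Even1 φ) (ψ : W g ≃ₗ[ℤ] W g) :
    Even1 (ψ * φ * ψ⁻¹) := fun x => by
  obtain ⟨z, hz⟩ := h (ψ⁻¹ x)
  refine ⟨ψ z, ?_⟩
  have h2 : ψ (ψ⁻¹ x) = x := ψ.apply_symm_apply x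
  rw [LinearEquiv.mul_apply, LinearEquiv.mul_apply, hz, map_add, map_smul, h2]

/-- the classes of the arcs of the plat -/
def avec (t : Fin (g + 1)) : W g := (va g t.val, 0)

/-- the classes of the other arcs -/
def fvec (t : Fin g) : W g := (0, vf g t.val)

theorem rho_ga (t : Fin (g + 1)) : rho g (ga t) = trv (avec t) := by
  rw [ga, rho_gen]
  congr 1
  simp [vec, avec]

theorem rho_gf (t : Fin g) : rho g (gf t) = trv (fvec t) := by
  rw [gf, rho_gen]
  congr 1
  have h2 : (2 * t.val + 1) / 2 = t.val := by omega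
  simp [vec, fvec, h2]

theorem om_avec_avec (s t : Fin (g + 1)) : om (avec s) (avec t) = 0 := by
  simp [om, avec]

theorem om_avec_fvec (s : Fin (g + 1)) (t : Fin g) : om (avec s) (fvec t) =
    (if s.val = t.val then 1 else 0) - (if s.val = t.val + 1 then 1 else 0) := by
  simp only [om, avec, fvec, zero_dotProduct, sub_zero]
  exact va_dot_vf (by omega) t.isLt

theorem om_fvec_avec (s : Fin (g + 1)) (t : Fin g) : om (fvec t) (avec s) =
    (if s.val = t.val + 1 then 1 else 0) - (if s.val = t.val then 1 else 0) := by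
  rw [om_anti, om_avec_fvec]; ring

/-- the generators of the Hilden subgroup -/
theorem ga_zero_mem : (ga 0 : Braid (2 * g + 1)) ∈ hilden g :=
  Subgroup.subset_closure (Or.inl (Or.inl rfl))

theorem s_mem (t : Fin g) : gf t * ga t.castSucc * ga t.succ * gf t ∈ hilden g :=
  Subgroup.subset_closure (Or.inr ⟨t, rfl⟩)

theorem m_mem (t : Fin g) (ht : t.val = 0) :
    gf t * ga t.castSucc * ga t.castSucc * gf t ∈ hilden g :=
  Subgroup.subset_closure (Or.inl (Or.inr ⟨t, ht, rfl⟩))

theorem s_apply (t : Fin g) (i : Fin (g + 1)) :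
    rho g (gf t * ga t.castSucc * ga t.succ * gf t) (avec i) =
      avec (Equiv.swap t.castSucc t.succ i) := by
  have h1 : om (avec t.castSucc) (fvec t) = 1 := by rw [om_avec_fvec]; simp
  have h2 : om (avec t.succ) (fvec t) = -1 := by rw [om_avec_fvec]; simp
  have h1' : om (fvec t) (avec t.castSucc) = -1 := by rw [om_anti, h1]
  have h2' : om (fvec t) (avec t.succ) = 1 := by rw [om_anti, h2]; ring
  have key : rho g (gf t * ga t.castSucc * ga t.succ * gf t) (avec i) =
      avec i + om (fvec t) (avec i) • (avec t.castSucc - avec t.succ) := by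
    simp only [map_mul, rho_ga, rho_gf, LinearEquiv.mul_apply, trv_apply, om_add, om_smul,
      om_avec_avec, h1, h2, h1', h2', om_self]
    module
  rw [key, om_fvec_avec]
  rcases eq_or_ne i t.castSucc with rfl | hi
  · rw [Equiv.swap_apply_left]
    simp
  · rcases eq_or_ne i t.succ with rfl | hi'
    · rw [Equiv.swap_apply_right]
      simp
    · rw [Equiv.swap_apply_of_ne_of_ne hi hi']
      have e1 : i.val ≠ t.val := fun h => hi (Fin.ext h)
      have e2 : i.val ≠ t.val + 1 := fun h => hi' (Fin.ext h)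
      simp [e1, e2]

/-- all permutations of the arcs are realised by the Hilden subgroup -/
theorem exists_perm (π : Equiv.Perm (Fin (g + 1))) :
    ∃ h ∈ hilden g, ∀ i, rho g h (avec i) = avec (π i) := by
  have hπ : π ∈ Submonoid.closure
      (Set.range fun i : Fin g => Equiv.swap i.castSucc i.succ) := by
    rw [Equiv.Perm.mclosure_swap_castSucc_succ]; trivial
  induction hπ using Submonoid.closure_induction with
  | mem x hx =>
    obtain ⟨t, rfl⟩ := hx
    exact ⟨_, s_mem t, s_apply t⟩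
  | one => exact ⟨1, one_mem _, fun i => by rw [map_one]; rfl⟩
  | mul x y _ _ hx hy =>
    obtain ⟨h, hh, h1⟩ := hx
    obtain ⟨h', hh', h2⟩ := hy
    exact ⟨h * h', mul_mem hh hh', fun i => by
      rw [map_mul, LinearEquiv.mul_apply, h2, h1]; rfl⟩

theorem exists_perm_pair {i j : Fin (g + 1)} (hij : i ≠ j) {a b : Fin (g + 1)} (hab : a ≠ b) :
    ∃ π : Equiv.Perm (Fin (g + 1)), π a = i ∧ π b = j := by
  refine ⟨Equiv.swap (Equiv.swap a i b) j * Equiv.swap a i, ?_, ?_⟩
  · rw [Equiv.Perm.mul_apply, Equiv.swap_apply_left]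
    apply Equiv.swap_apply_of_ne_of_ne _ hij
    intro h
    have h1 : Equiv.swap a i a = Equiv.swap a i b := by rw [Equiv.swap_apply_left]; exact h
    exact hab ((Equiv.swap a i).injective h1)
  · rw [Equiv.Perm.mul_apply, Equiv.swap_apply_left]

/-- the basic element of the Hilden subgroup -/
theorem exists_m {i j : Fin (g + 1)} (hij : i ≠ j) : ∃ h ∈ hilden g, Even1 (rho g h) ∧
    rho g h (avec i) = - avec i ∧ rho g h (avec j) = avec j + (2 : ℤ) • avec i ∧
    ∀ k, k ≠ i → k ≠ j → rho g h (avec k) = avec k := by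
  have hg : 0 < g := by
    by_contra h0
    have : g = 0 := by omega
    exact hij (Fin.ext (by omega))
  set t : Fin g := ⟨0, hg⟩ with ht
  obtain ⟨π, h1, h2⟩ := exists_perm_pair hij
    (a := t.castSucc) (b := t.succ) (by
      intro h; have := congrArg Fin.val h; simp at this)
  obtain ⟨p, hp, hpa⟩ := exists_perm π
  have e1 : om (avec t.castSucc) (fvec t) = 1 := by rw [om_avec_fvec]; simp
  have e1' : om (fvec t) (avec t.castSucc) = -1 := by rw [om_anti, e1]
  have key : ∀ x, rho g (gf t * ga t.castSucc * ga t.castSucc * gf t) x =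
      x + (2 : ℤ) • (- (om (avec t.castSucc) x) • fvec t +
        (om (avec t.castSucc) x + om (fvec t) x) • avec t.castSucc) := by
    intro x
    simp only [map_mul, rho_ga, rho_gf, LinearEquiv.mul_apply, trv_apply, om_add, om_smul,
      e1, e1', om_self]
    module
  have hinv : ∀ k, (rho g p)⁻¹ (avec (π k)) = avec k := by
    intro k
    rw [← hpa k]
    exact (rho g p).symm_apply_apply _
  have hconj : ∀ k, rho g (p * (gf t * ga t.castSucc * ga t.castSucc * gf t) * p⁻¹)
      (avec (π k)) = rho g p (avec k + (2 * om (fvec t) (avec k)) • avec t.castSucc) := by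
    intro k
    rw [map_mul, map_mul, map_inv, LinearEquiv.mul_apply, LinearEquiv.mul_apply, hinv, key,
      om_avec_avec]
    congr 1
    module
  refine ⟨p * (gf t * ga t.castSucc * ga t.castSucc * gf t) * p⁻¹,
    mul_mem (mul_mem hp (m_mem t rfl)) (inv_mem hp), ?_, ?_, ?_, ?_⟩
  · rw [map_mul, map_mul, map_inv]
    exact Even1.conj (fun x => ⟨_, key x⟩) _
  · rw [← h1, hconj, e1', map_add, map_smul, hpa]
    module
  · rw [← h2, hconj, om_fvec_avec, map_add, map_smul, hpa, hpa, h1]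
    simp
  · intro k hk1 hk2
    obtain ⟨k', rfl⟩ := π.surjective k
    have n1 : k' ≠ t.castSucc := fun h => hk1 (by rw [h, h1])
    have n2 : k' ≠ t.succ := fun h => hk2 (by rw [h, h2])
    have n1' : k'.val ≠ t.val := fun h => n1 (Fin.ext h)
    have n2' : k'.val ≠ t.val + 1 := fun h => n2 (Fin.ext h)
    rw [hconj, om_fvec_avec, if_neg n1', if_neg n2', sub_zero, mul_zero, zero_smul, add_zero, hpa]

end Pool.Agent.Work.Hild
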