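import Pool.Agent.Work.MP_f08fab_gt.HMod

/-!
# The determinant is invariant under the moves of Birman's theorem
-/

set_option autoImplicit false

namespace Pool.Agent.Work.Hild

open Matrix

variable {g : ℕ}

/-- the determinant of the link which is the plat closure of a braid -/
noncomputable def linkDet (L : Σ g : ℕ, Braid (2 * g + 1)) : ℕ :=
  (blockC (rho L.1 L.2)).det.natAbs

/-- the map preserves the Lagrangian -/
def PresE (φ : W g ≃ₗ[ℤ] W g) : Prop := ∀ x, (φ (x, 0)).2 = 0

theorem PresE.eq {φ : W g ≃ₗ[ℤ] W g} (h : PresE φ) (x : Fin g → ℤ) :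
    φ (x, 0) = (blockA φ *ᵥ x, 0) := Prod.ext (fst_apply φ x) (h x)

theorem PresE.mul {φ ψ : W g ≃ₗ[ℤ] W g} (h : PresE φ) (h' : PresE ψ) : PresE (φ * ψ) := fun x => by
  rw [LinearEquiv.mul_apply, h'.eq, h.eq]

theorem PresE.inv {φ : W g ≃ₗ[ℤ] W g} (hs : IsSymp φ) (h : PresE φ) : PresE φ⁻¹ := by
  intro x
  ext i
  have h1 := hs (φ⁻¹ (x, 0)) (Pi.single i 1, 0)
  have h2 : φ (φ⁻¹ (x, 0)) = (x, 0) := φ.apply_symm_apply _
  rw [h2, h.eq] at h1
  simp only [om, dotProduct_zero, zero_dotProduct, sub_zero, zero_sub] at h1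
  simpa using h1.symm

theorem four_apply {a a' f : W g} (ha : a.2 = 0) (ha' : a'.2 = 0) (h : om a f * om a f = 1)
    (h' : om a' f * om a' f = 1) (x : Fin g → ℤ) :
    (trv f (trv a (trv a' (trv f (x, 0))))).2 = 0 := by
  have e1 : ∀ u v : W g, u.2 = 0 → v.2 = 0 → om u v = 0 := by
    intro u v hu hv
    simp [om, hu, hv]
  have h1 : om a' (x, 0) = 0 := e1 _ _ ha' rfl
  have h2 : om a (x, 0) = 0 := e1 _ _ ha rfl
  have h3 : om a a' = 0 := e1 _ _ ha ha'
  have h4 : om f a = - om a f := om_anti _ _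
  have h5 : om f a' = - om a' f := om_anti _ _
  have key : trv f (trv a (trv a' (trv f (x, 0)))) =
      (x, 0) + (om f (x, 0) * om a' f) • a' + (om f (x, 0) * om a f) • a +
        (om f (x, 0) * (2 - om a f * om a f - om a' f * om a' f)) • f := by
    simp only [trv_apply, om_add, om_smul, om_self, h1, h2, h3, h4, h5]
    module
  rw [key, h, h']
  simp [ha, ha']

theorem presE_hilden {h : Braid (2 * g + 1)} (hh : h ∈ hilden g) : PresE (rho g h) := by
  induction hh using Subgroup.closure_induction with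
  | mem x hx =>
    rcases hx with (hx | ⟨t, ht, rfl⟩) | ⟨t, rfl⟩
    · rw [Set.mem_singleton_iff] at hx
      subst hx
      intro x
      rw [rho_ga, trv_apply]
      simp [om, avec]
    · intro x
      simp only [gm, gs, map_mul, LinearEquiv.mul_apply, rho_ga, rho_gf]
      refine four_apply rfl rfl ?_ ?_ x <;> rw [om_avec_fvec] <;> simp
    · intro x
      simp only [gm, gs, map_mul, LinearEquiv.mul_apply, rho_ga, rho_gf]
      refine four_apply rfl rfl ?_ ?_ x <;> rw [om_avec_fvec] <;> simp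
  | one => intro x; rw [map_one]; rfl
  | mul x y _ _ hx hy => rw [map_mul]; exact hx.mul hy
  | inv x _ hx => rw [map_inv]; exact PresE.inv (isSymp_rho x) hx

/-- the lower right block -/
def blockD (φ : W g ≃ₗ[ℤ] W g) : Matrix (Fin g) (Fin g) ℤ :=
  Matrix.of fun i j => (φ (0, Pi.single j 1)).2 i

theorem snd_apply' (φ : W g ≃ₗ[ℤ] W g) (y : Fin g → ℤ) : (φ (0, y)).2 = blockD φ *ᵥ y := by
  have h1 : LinearMap.snd ℤ (Fin g → ℤ) (Fin g → ℤ) ∘ₗ (φ : W g →ₗ[ℤ] W g) ∘ₗ
      LinearMap.inr ℤ (Fin g → ℤ) (Fin g → ℤ) = (blockD φ).mulVecLin := by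
    refine LinearMap.pi_ext' fun i => LinearMap.ext_ring ?_
    ext t
    simp [blockD]
  simpa using LinearMap.congr_fun h1 y

theorem PresE.snd {φ : W g ≃ₗ[ℤ] W g} (h : PresE φ) (w : W g) : (φ w).2 = blockD φ *ᵥ w.2 := by
  have e : w = (w.1, 0) + (0, w.2) := by simp
  conv_lhs => rw [e]
  rw [map_add, Prod.snd_add, h, snd_apply', zero_add]

theorem PresE.unitA {φ : W g ≃ₗ[ℤ] W g} (hs : IsSymp φ) (h : PresE φ) :
    (blockA φ).det.natAbs = 1 := by
  have e : blockA φ * blockA φ⁻¹ = 1 := by
    apply mat_ext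
    intro x
    have h2 : φ (φ⁻¹ (x, 0)) = (x, 0) := φ.apply_symm_apply _
    rw [(h.inv hs).eq, h.eq, mulVec_mulVec] at h2
    rw [one_mulVec]
    exact congrArg Prod.fst h2
  have := congrArg Matrix.det e
  rw [det_mul, det_one] at this
  exact Int.isUnit_iff_natAbs_eq.1 (IsUnit.of_mul_eq_one _ this)

theorem PresE.unitD {φ : W g ≃ₗ[ℤ] W g} (hs : IsSymp φ) (h : PresE φ) :
    (blockD φ).det.natAbs = 1 := by
  have e : blockD φ * blockD φ⁻¹ = 1 := by
    apply mat_ext
    intro y
    have h2 : φ (φ⁻¹ (0, y)) = (0, y) := φ.apply_symm_apply _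
    have h3 := congrArg Prod.snd h2
    rw [h.snd, (h.inv hs).snd, mulVec_mulVec] at h3
    rw [one_mulVec]
    exact h3
  have := congrArg Matrix.det e
  rw [det_mul, det_one] at this
  exact Int.isUnit_iff_natAbs_eq.1 (IsUnit.of_mul_eq_one _ this)

theorem linkDet_hilden (β h h' : Braid (2 * g + 1)) (hh : h ∈ hilden g) (hh' : h' ∈ hilden g) :
    linkDet ⟨g, h * β * h'⟩ = linkDet ⟨g, β⟩ := by
  have p := presE_hilden hh
  have p' := presE_hilden hh'
  have e : blockC (rho g (h * β * h')) =
      blockD (rho g h) * blockC (rho g β) * blockA (rho g h') := by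
    apply mat_ext
    intro x
    rw [← snd_apply, map_mul, map_mul, LinearEquiv.mul_apply, LinearEquiv.mul_apply, p'.eq, p.snd,
      snd_apply, mulVec_mulVec, mulVec_mulVec]
  unfold linkDet
  simp only
  rw [e, det_mul, det_mul, Int.natAbs_mul, Int.natAbs_mul, p.unitD (isSymp_rho h),
    p'.unitA (isSymp_rho h'), one_mul, mul_one]

/-! ### stabilisation -/

/-- sum of the second coordinates -/
def sumy (v : W (g + 1)) : ℤ := ∑ t, v.2 t

/-- the projection to the smaller surface -/
def prj (v : W (g + 1)) : W g :=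
  (fun t => v.1 t.castSucc - v.1 (Fin.last g), fun t => v.2 t.castSucc)

theorem sumy_add (v w : W (g + 1)) : sumy (v + w) = sumy v + sumy w := by
  simp [sumy, Finset.sum_add_distrib]

theorem sumy_smul (c : ℤ) (v : W (g + 1)) : sumy (c • v) = c * sumy v := by
  simp [sumy, Finset.mul_sum]

theorem prj_add (v w : W (g + 1)) : prj (v + w) = prj v + prj w := by
  ext t
  · simp [prj]; ring
  · simp [prj]

theorem prj_smul (c : ℤ) (v : W (g + 1)) : prj (c • v) = c • prj v := by
  ext t
  · simp [prj]; ring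
  · simp [prj]

theorem om_prj {v w : W (g + 1)} (hv : sumy v = 0) (hw : sumy w = 0) :
    om (prj v) (prj w) = om v w := by
  unfold sumy at hv hw
  rw [Fin.sum_univ_castSucc] at hv hw
  simp only [om, prj, dotProduct]
  rw [Fin.sum_univ_castSucc, Fin.sum_univ_castSucc]
  simp only [sub_mul, mul_sub, Finset.sum_sub_distrib, ← Finset.sum_mul, ← Finset.mul_sum]
  have e1 : ∑ t : Fin g, w.2 t.castSucc = - w.2 (Fin.last g) := by linarith
  have e2 : ∑ t : Fin g, v.2 t.castSucc = - v.2 (Fin.last g) := by linarith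
  rw [e1, e2]
  ring

theorem sumy_vec {k : ℕ} (hk : k < 2 * g + 1) : sumy (vec (g + 1) k) = 0 := by
  unfold vec sumy
  split_ifs with h
  · simp
  · simp only [vf, Finset.sum_sub_distrib, sum_ite_val]
    rw [if_pos (by omega), if_pos (by omega)]
    ring

theorem prj_vec {k : ℕ} (hk : k < 2 * g + 1) : prj (vec (g + 1) k) = vec g k := by
  unfold vec prj
  split_ifs with h
  · ext t
    · simp only [va, Fin.val_castSucc, Fin.val_last]
      have e1 : k / 2 ≠ g + 1 := by omega
      have e2 : t.val < g := t.isLt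
      rw [if_neg e1, if_neg e1]
      split_ifs <;> omega
    · simp
  · ext t
    · simp
    · simp only [vf, Fin.val_castSucc]

theorem up_gen (k : Fin (2 * g + 1)) : up (gen k) = gen ⟨k.val, by omega⟩ := by
  unfold up addStrand
  rw [incl_gen, incl_gen]
  rfl

theorem up_one : up (1 : Braid (2 * g + 1)) = 1 := by
  unfold up addStrand; rw [map_one, map_one]
theorem up_mul (x y : Braid (2 * g + 1)) : up (x * y) = up x * up y := by
  unfold up addStrand; rw [map_mul, map_mul]
theorem up_inv (x : Braid (2 * g + 1)) : up x⁻¹ = (up x)⁻¹ := by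
  unfold up addStrand; rw [map_inv, map_inv]

theorem sumy_up (β : Braid (2 * g + 1)) : ∀ v, sumy (rho (g + 1) (up β) v) = sumy v := by
  refine braid_induction (p := fun β => ∀ v, sumy (rho (g + 1) (up β) v) = sumy v)
    ?_ ?_ ?_ ?_ β
  · intro v; rw [up_one, map_one]; rfl
  · intro k v
    rw [up_gen, rho_gen, trv_apply, sumy_add, sumy_smul, sumy_vec k.isLt, mul_zero, add_zero]
  · intro x y hx hy v
    rw [up_mul, map_mul, LinearEquiv.mul_apply, hx, hy]
  · intro x hx v
    have h := hx ((rho (g + 1) (up x))⁻¹ v)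
    have h2 : rho (g + 1) (up x) ((rho (g + 1) (up x))⁻¹ v) = v :=
      (rho (g + 1) (up x)).apply_symm_apply _
    rw [h2] at h
    rw [up_inv, map_inv, h]

theorem prj_up (β : Braid (2 * g + 1)) : ∀ v, sumy v = 0 →
    prj (rho (g + 1) (up β) v) = rho g β (prj v) := by
  refine braid_induction (p := fun β => ∀ v, sumy v = 0 →
    prj (rho (g + 1) (up β) v) = rho g β (prj v)) ?_ ?_ ?_ ?_ β
  · intro v _; rw [up_one, map_one, map_one]; rfl
  · intro k v hv
    rw [up_gen, rho_gen, rho_gen, trv_apply, trv_apply, prj_add, prj_smul,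
      prj_vec k.isLt]
    congr 2
    rw [← om_prj (sumy_vec k.isLt) hv, prj_vec k.isLt]
  · intro x y hx hy v hv
    rw [up_mul, map_mul, map_mul, LinearEquiv.mul_apply, LinearEquiv.mul_apply,
      hx _ (by rw [sumy_up, hv]), hy v hv]
  · intro x hx v hv
    have h2 : rho (g + 1) (up x) ((rho (g + 1) (up x))⁻¹ v) = v :=
      (rho (g + 1) (up x)).apply_symm_apply _
    have h3 : sumy ((rho (g + 1) (up x))⁻¹ v) = 0 := by
      have := sumy_up x ((rho (g + 1) (up x))⁻¹ v)
      rw [h2, hv] at this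
      exact this.symm
    have h := hx _ h3
    rw [h2] at h
    rw [up_inv, map_inv, map_inv, h]
    exact ((rho g x).symm_apply_apply _).symm

theorem det_stab (M : Matrix (Fin (g + 1)) (Fin (g + 1)) ℤ) (C : Matrix (Fin g) (Fin g) ℤ)
    (h1 : ∀ i j : Fin g, M i.castSucc j.castSucc = C i j)
    (h2 : ∀ j, ∑ i, M i j = if j = Fin.last g then -1 else 0) : M.det = -C.det := by
  have e1 : (M.updateRow (Fin.last g) (∑ k, (1 : ℤ) • M k)).det = M.det := by
    have := Matrix.det_updateRow_sum M (Fin.last g) (fun _ => (1 : ℤ))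
    rw [this, one_smul]
  rw [← e1, Matrix.det_succ_row _ (Fin.last g), Finset.sum_eq_single (Fin.last g)]
  · have e2 : (M.updateRow (Fin.last g) (∑ k, (1 : ℤ) • M k)) (Fin.last g) (Fin.last g) = -1 := by
      rw [updateRow_self, Finset.sum_apply]
      have := h2 (Fin.last g)
      rw [if_pos rfl] at this
      rw [← this]
      exact Finset.sum_congr rfl fun k _ => by simp
    have e3 : (M.updateRow (Fin.last g) (∑ k, (1 : ℤ) • M k)).submatrix
        (Fin.last g).succAbove (Fin.last g).succAbove = C := by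
      ext i j
      rw [submatrix_apply, Fin.succAbove_last, updateRow_ne (Fin.castSucc_lt_last i).ne, h1]
    rw [e2, e3, Even.neg_one_pow ⟨_, rfl⟩]
    ring
  · intro j _ hj
    have e2 : (M.updateRow (Fin.last g) (∑ k, (1 : ℤ) • M k)) (Fin.last g) j = 0 := by
      rw [updateRow_self, Finset.sum_apply]
      have := h2 j
      rw [if_neg hj] at this
      rw [← this]
      exact Finset.sum_congr rfl fun k _ => by simp
    rw [e2]; ring
  · simp

theorem stab_entry (β : Braid (2 * g + 1)) (i j : Fin g) :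
    blockC (rho (g + 1) (stabilise β)) i.castSucc j.castSucc =
      blockC (rho g β) i j := by
  have e : trv (vec (g + 1) (2 * g + 1)) (Pi.single j.castSucc 1, 0) =
      (Pi.single j.castSucc 1, 0) := by
    rw [trv_apply]
    have : om (vec (g + 1) (2 * g + 1)) (Pi.single j.castSucc 1, 0) = 0 := by
      have h1 : (2 * g + 1) % 2 ≠ 0 := by omega
      have h2 : (2 * g + 1) / 2 = g := by omega
      simp [om, vec, h2, vf]
      omega
    rw [this, zero_smul, add_zero]
  show (rho (g + 1) (stabilise β) (Pi.single j.castSucc 1, 0)).2 i.castSucc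
    = (rho g β (Pi.single j 1, 0)).2 i
  rw [stabilise, map_mul, LinearEquiv.mul_apply, rho_gen, e]
  have h := congrArg (fun v => v.2 i) (prj_up β (Pi.single j.castSucc 1, 0) (by simp [sumy]))
  have h3 : prj ((Pi.single j.castSucc 1, 0) : W (g + 1)) = (Pi.single j 1, 0) := by
    ext t
    · simp [prj, Pi.single_apply, (Fin.castSucc_lt_last j).ne']
    · simp [prj]
  rw [h3] at h
  exact h

theorem stab_sum (β : Braid (2 * g + 1)) (j : Fin (g + 1)) :
    ∑ i, blockC (rho (g + 1) (stabilise β)) i j =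
      if j = Fin.last g then -1 else 0 := by
  show ∑ i, (rho (g + 1) (stabilise β) (Pi.single j 1, 0)).2 i = _
  rw [stabilise, map_mul, LinearEquiv.mul_apply, rho_gen]
  have h := sumy_up β (trv (vec (g + 1) (2 * g + 1)) (Pi.single j 1, 0))
  unfold sumy at h
  rw [h]
  have h1 : (2 * g + 1) % 2 ≠ 0 := by omega
  have h2 : (2 * g + 1) / 2 = g := by omega
  have e1 : vec (g + 1) (2 * g + 1) = (0, vf (g + 1) g) := by
    unfold vec
    rw [if_neg h1, h2]
  have e2 : ∑ t : Fin (g + 1), vf (g + 1) g t = 1 := by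
    simp only [vf, Finset.sum_sub_distrib, sum_ite_val]
    rw [if_pos (by omega), if_neg (by omega)]
    ring
  rw [trv_apply, e1]
  simp only [Prod.snd_add, Prod.smul_snd, Pi.add_apply, Pi.smul_apply, Pi.zero_apply, zero_add,
    smul_eq_mul]
  rw [← Finset.mul_sum, e2, mul_one]
  simp only [om, zero_dotProduct, zero_sub, dotProduct_single_one]
  have e3 : j.val < g + 1 := j.isLt
  simp only [vf, Fin.ext_iff, Fin.val_last]
  split_ifs <;> omega

theorem linkDet_stab (β : Braid (2 * g + 1)) :
    linkDet ⟨g + 1, stabilise β⟩ = linkDet ⟨g, β⟩ := by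
  unfold linkDet
  simp only
  rw [det_stab _ (blockC (rho g β)) (stab_entry β) (stab_sum β), Int.natAbs_neg]

theorem linkDet_eq {L L' : Σ g : ℕ, Braid (2 * g + 1)} (h : SameLink L L') :
    linkDet L = linkDet L' := by
  induction h with
  | rel x y h =>
    cases h with
    | hilden g β h h' hh hh' => exact (linkDet_hilden β h h' hh hh').symm
    | stab g β => exact (linkDet_stab β).symm
  | refl x => rfl
  | symm x y _ ih => exact ih.symm
  | trans x y z _ _ ih ih' => exact ih.trans ih'

end Pool.Agent.Work.Hild
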