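import Mathlib

/-!
# The level two congruence subgroup of `GL (g, ℤ)`

It is generated (as a monoid) by the squares of the elementary matrices and the signs.
-/

set_option autoImplicit false

namespace Pool.Agent.Work.Hild

open Matrix Finset

variable {g : ℕ}

/-- `M` is invertible, is the identity modulo two, and agrees with the identity in the rows and
columns of `F` -/
structure Good2 (F : Finset (Fin g)) (M : Matrix (Fin g) (Fin g) ℤ) : Prop where
  det : IsUnit M.det
  two : ∀ i j, (2 : ℤ) ∣ M i j - (1 : Matrix (Fin g) (Fin g) ℤ) i j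
  row : ∀ f ∈ F, ∀ j, M f j = (1 : Matrix (Fin g) (Fin g) ℤ) f j
  col : ∀ f ∈ F, ∀ j, M j f = (1 : Matrix (Fin g) (Fin g) ℤ) j f

theorem Good2.left {F : Finset (Fin g)} {M : Matrix (Fin g) (Fin g) ℤ} (h : Good2 F M)
    {a b : Fin g} (ha : a ∉ F) (hb : b ∉ F) (hab : a ≠ b) (k : ℤ) :
    Good2 F (transvection a b (2 * k) * M) := by
  refine ⟨?_, ?_, ?_, ?_⟩
  · rw [det_mul, det_transvection_of_ne _ _ hab, one_mul]; exact h.det
  · intro i j
    by_cases hi : i = a
    · subst hi
      rw [transvection_mul_apply_same]
      have := h.two i j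
      have h2 : M i j + 2 * k * M b j - (1 : Matrix (Fin g) (Fin g) ℤ) i j
          = (M i j - (1 : Matrix (Fin g) (Fin g) ℤ) i j) + 2 * (k * M b j) := by ring
      rw [h2]
      exact dvd_add this (dvd_mul_right _ _)
    · rw [transvection_mul_apply_of_ne _ _ _ _ hi]
      exact h.two i j
  · intro f hf j
    have hfa : f ≠ a := fun h' => ha (h' ▸ hf)
    rw [transvection_mul_apply_of_ne _ _ _ _ hfa]
    exact h.row f hf j
  · intro f hf j
    by_cases hj : j = a
    · subst hj
      rw [transvection_mul_apply_same, h.col f hf j, h.col f hf b]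
      have : (1 : Matrix (Fin g) (Fin g) ℤ) b f = 0 := one_apply_ne (fun h' => hb (h' ▸ hf))
      rw [this, mul_zero, add_zero]
    · rw [transvection_mul_apply_of_ne _ _ _ _ hj]
      exact h.col f hf j

theorem Good2.right {F : Finset (Fin g)} {M : Matrix (Fin g) (Fin g) ℤ} (h : Good2 F M)
    {a b : Fin g} (ha : a ∉ F) (hb : b ∉ F) (hab : a ≠ b) (k : ℤ) :
    Good2 F (M * transvection a b (2 * k)) := by
  refine ⟨?_, ?_, ?_, ?_⟩
  · rw [det_mul, det_transvection_of_ne _ _ hab, mul_one]; exact h.det
  · intro i j
    by_cases hj : j = b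
    · subst hj
      rw [mul_transvection_apply_same]
      have := h.two i j
      have h2 : M i j + 2 * k * M i a - (1 : Matrix (Fin g) (Fin g) ℤ) i j
          = (M i j - (1 : Matrix (Fin g) (Fin g) ℤ) i j) + 2 * (k * M i a) := by ring
      rw [h2]
      exact dvd_add this (dvd_mul_right _ _)
    · rw [mul_transvection_apply_of_ne _ _ _ _ hj]
      exact h.two i j
  · intro f hf j
    by_cases hj : j = b
    · subst hj
      rw [mul_transvection_apply_same, h.row f hf j, h.row f hf a]
      have : (1 : Matrix (Fin g) (Fin g) ℤ) f a = 0 := one_apply_ne (fun h' => ha (h' ▸ hf))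
      rw [this, mul_zero, add_zero]
    · rw [mul_transvection_apply_of_ne _ _ _ _ hj]
      exact h.row f hf j
  · intro f hf j
    have hfb : f ≠ b := fun h' => hb (h' ▸ hf)
    rw [mul_transvection_apply_of_ne _ _ _ _ hfb]
    exact h.col f hf j

section

variable {S : Submonoid (Matrix (Fin g) (Fin g) ℤ)}

theorem mem_of_left (hE : ∀ i j, i ≠ j → ∀ k : ℤ, transvection i j (2 * k) ∈ S)
    {a b : Fin g} (hab : a ≠ b) (k : ℤ) {M : Matrix (Fin g) (Fin g) ℤ}
    (h : transvection a b (2 * k) * M ∈ S) : M ∈ S := by
  have h1 := S.mul_mem (hE a b hab (-k)) h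
  rw [← Matrix.mul_assoc, transvection_mul_transvection_same _ _ hab] at h1
  have h2 : 2 * -k + 2 * k = 0 := by ring
  rwa [h2, transvection_zero, Matrix.one_mul] at h1

theorem mem_of_right (hE : ∀ i j, i ≠ j → ∀ k : ℤ, transvection i j (2 * k) ∈ S)
    {a b : Fin g} (hab : a ≠ b) (k : ℤ) {M : Matrix (Fin g) (Fin g) ℤ}
    (h : M * transvection a b (2 * k) ∈ S) : M ∈ S := by
  have h1 := S.mul_mem h (hE a b hab (-k))
  rw [Matrix.mul_assoc, transvection_mul_transvection_same _ _ hab] at h1
  have h2 : 2 * k + 2 * -k = 0 := by ring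
  rwa [h2, transvection_zero, Matrix.mul_one] at h1

/-- the matrices with `p`-th column the unit vector -/
theorem level_row (hE : ∀ i j, i ≠ j → ∀ k : ℤ, transvection i j (2 * k) ∈ S)
    {F : Finset (Fin g)} {p : Fin g} (hp : p ∉ F)
    (ih : ∀ M : Matrix (Fin g) (Fin g) ℤ, Good2 (insert p F) M → M ∈ S) :
    ∀ (m : ℕ) (M : Matrix (Fin g) (Fin g) ℤ), Good2 F M →
      (∀ i, M i p = (1 : Matrix (Fin g) (Fin g) ℤ) i p) → (∑ j, (M p j).natAbs) = m → M ∈ S := by
  intro m
  induction m using Nat.strong_induction_on with
  | _ m ihm =>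
    intro M hM hc hm
    by_cases h : ∀ j, j ≠ p → M p j = 0
    · refine ih M ⟨hM.det, hM.two, ?_, ?_⟩
      · intro f hf j
        rcases mem_insert.mp hf with rfl | hf
        · by_cases hj : j = f
          · subst hj; exact hc j
          · rw [h j hj, one_apply_ne (Ne.symm hj)]
        · exact hM.row f hf j
      · intro f hf j
        rcases mem_insert.mp hf with rfl | hf
        · exact hc j
        · exact hM.col f hf j
    · push Not at h
      obtain ⟨j, hj, hne⟩ := h
      have hjF : j ∉ F := by
        intro hjF
        apply hne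
        rw [hM.col j hjF p, one_apply_ne (Ne.symm hj)]
      have h1 := hM.two p j
      rw [one_apply_ne (Ne.symm hj), sub_zero] at h1
      obtain ⟨k, hk⟩ := h1
      refine mem_of_right hE (Ne.symm hj) (-k) ?_
      refine ihm _ ?_ _ (hM.right hp hjF (Ne.symm hj) (-k)) ?_ rfl
      · rw [← hm]
        refine sum_lt_sum ?_ ⟨j, mem_univ _, ?_⟩
        · intro i _
          by_cases hi : i = j
          · subst hi
            rw [mul_transvection_apply_same, hc p, one_apply_eq, hk]
            have : 2 * k + 2 * -k * 1 = 0 := by ring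
            rw [this]
            simp
          · rw [mul_transvection_apply_of_ne _ _ _ _ hi]
        · rw [mul_transvection_apply_same, hc p, one_apply_eq]
          have : M p j + 2 * -k * 1 = 0 := by rw [hk]; ring
          rw [this]
          simpa using Int.natAbs_pos.mpr hne
      · intro i
        rw [mul_transvection_apply_of_ne _ _ _ _ (Ne.symm hj)]
        exact hc i

theorem natAbs_step {a b : ℤ} (ha : a ≠ 0) (hab : a.natAbs < b.natAbs) :
    ∃ k : ℤ, (b + 2 * k * a).natAbs < b.natAbs := by
  rcases lt_or_gt_of_ne ha with h | h <;> rcases lt_trichotomy b 0 with h' | h' | h'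
  · exact ⟨-1, by omega⟩
  · omega
  · exact ⟨1, by omega⟩
  · exact ⟨1, by omega⟩
  · omega
  · exact ⟨-1, by omega⟩

theorem level_col (hE : ∀ i j, i ≠ j → ∀ k : ℤ, transvection i j (2 * k) ∈ S)
    (hD : ∀ i : Fin g, diagonal (Function.update (1 : Fin g → ℤ) i (-1)) ∈ S)
    {F : Finset (Fin g)} {p : Fin g} (hp : p ∉ F)
    (ih : ∀ M : Matrix (Fin g) (Fin g) ℤ, Good2 (insert p F) M → M ∈ S) :
    ∀ (m : ℕ) (M : Matrix (Fin g) (Fin g) ℤ), Good2 F M →
      (∑ i, (M i p).natAbs) = m → M ∈ S := by
  intro m
  induction m using Nat.strong_induction_on with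
  | _ m ihm =>
    intro M hM hm
    have hodd : ¬ (2 : ℤ) ∣ M p p := by
      intro h
      have h1 := hM.two p p
      rw [one_apply_eq] at h1
      omega
    have hpp : M p p ≠ 0 := fun h => hodd (h ▸ dvd_zero _)
    by_cases h : ∀ i, i ≠ p → M i p = 0
    · have hdvd : M p p ∣ M.det := by
        rw [det_eq_sum_mul_adjugate_col M p]
        refine dvd_sum fun i _ => ?_
        by_cases hi : i = p
        · subst hi; exact dvd_mul_right _ _
        · rw [h i hi, zero_mul]; exact dvd_zero _
      rcases Int.isUnit_iff.mp (isUnit_of_dvd_unit hdvd hM.det) with h1 | h1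
      · refine level_row hE hp ih _ M hM ?_ rfl
        intro i
        by_cases hi : i = p
        · subst hi; rw [h1, one_apply_eq]
        · rw [h i hi, one_apply_ne hi]
      · set D : Matrix (Fin g) (Fin g) ℤ := diagonal (Function.update (1 : Fin g → ℤ) p (-1)) with hDdef
        have hDD : D * D = 1 := by
          rw [hDdef, diagonal_mul_diagonal, ← diagonal_one]
          congr 1
          funext i
          by_cases hi : i = p
          · subst hi; simp
          · simp [hi]
        have hDM : ∀ i j, (D * M) i j = if i = p then - M i j else M i j := by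
          intro i j
          rw [hDdef, diagonal_mul]
          by_cases hi : i = p
          · subst hi; simp
          · simp [hi]
        have hgood : Good2 F (D * M) := by
          refine ⟨?_, ?_, ?_, ?_⟩
          · rw [det_mul]
            refine IsUnit.mul ?_ hM.det
            have := congrArg det hDD
            rw [det_mul, det_one] at this
            exact IsUnit.of_mul_eq_one _ this
          · intro i j
            rw [hDM]
            have h3 := hM.two i j
            split_ifs with hi
            · subst hi
              by_cases hj : i = j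
              · subst hj
                rw [one_apply_eq] at h3 ⊢
                omega
              · rw [one_apply_ne hj] at h3 ⊢
                omega
            · exact h3
          · intro f hf j
            have hfp : f ≠ p := fun h' => hp (h' ▸ hf)
            rw [hDM, if_neg hfp]
            exact hM.row f hf j
          · intro f hf j
            rw [hDM]
            split_ifs with hj
            · subst hj
              have hfp : j ≠ f := fun h' => hp (h' ▸ hf)
              rw [hM.col f hf j, one_apply_ne hfp, neg_zero]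
            · exact hM.col f hf j
        have h4 : D * M ∈ S := by
          refine level_row hE hp ih _ (D * M) hgood ?_ rfl
          intro i
          rw [hDM]
          by_cases hi : i = p
          · subst hi; rw [if_pos rfl, h1, one_apply_eq, neg_neg]
          · rw [if_neg hi, h i hi, one_apply_ne hi]
        have h5 := S.mul_mem (hD p) h4
        rw [← hDdef, ← Matrix.mul_assoc, hDD, Matrix.one_mul] at h5
        exact h5
    · push Not at h
      obtain ⟨i, hi, hne⟩ := h
      have hiF : i ∉ F := by
        intro hiF
        apply hne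
        rw [hM.row i hiF p, one_apply_ne hi]
      have heven : (2 : ℤ) ∣ M i p := by
        have h1 := hM.two i p
        rwa [one_apply_ne hi, sub_zero] at h1
      rcases lt_trichotomy (M i p).natAbs (M p p).natAbs with hlt | heq | hgt
      · obtain ⟨k, hk⟩ := natAbs_step hne hlt
        refine mem_of_left hE (Ne.symm hi) k ?_
        refine ihm _ ?_ _ (hM.left hp hiF (Ne.symm hi) k) rfl
        rw [← hm]
        refine sum_lt_sum ?_ ⟨p, mem_univ _, ?_⟩
        · intro j _
          by_cases hj : j = p
          · subst hj
            rw [transvection_mul_apply_same]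
            exact hk.le
          · rw [transvection_mul_apply_of_ne _ _ _ _ hj]
        · rw [transvection_mul_apply_same]
          exact hk
      · exfalso
        apply hodd
        rwa [← Int.natAbs_dvd_natAbs, ← heq, Int.natAbs_dvd_natAbs]
      · obtain ⟨k, hk⟩ := natAbs_step hpp hgt
        refine mem_of_left hE hi k ?_
        refine ihm _ ?_ _ (hM.left hiF hp hi k) rfl
        rw [← hm]
        refine sum_lt_sum ?_ ⟨i, mem_univ _, ?_⟩
        · intro j _
          by_cases hj : j = i
          · subst hj
            rw [transvection_mul_apply_same]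
            exact hk.le
          · rw [transvection_mul_apply_of_ne _ _ _ _ hj]
        · rw [transvection_mul_apply_same]
          exact hk

theorem level_all (hE : ∀ i j, i ≠ j → ∀ k : ℤ, transvection i j (2 * k) ∈ S)
    (hD : ∀ i : Fin g, diagonal (Function.update (1 : Fin g → ℤ) i (-1)) ∈ S) :
    ∀ (N : ℕ) (F : Finset (Fin g)), Fᶜ.card = N → ∀ M : Matrix (Fin g) (Fin g) ℤ, Good2 F M →
      M ∈ S := by
  intro N
  induction N with
  | zero =>
    intro F hF M hM
    have hFu : F = univ := by
      rw [← compl_eq_empty_iff]
      exact card_eq_zero.mp hF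
    have h1 : M = 1 := by
      ext i j
      exact hM.row i (by rw [hFu]; exact mem_univ _) j
    rw [h1]
    exact S.one_mem
  | succ N ih =>
    intro F hF M hM
    obtain ⟨p, hp⟩ : Fᶜ.Nonempty := by
      rw [← card_pos]; omega
    have hpF : p ∉ F := mem_compl.mp hp
    refine level_col hE hD hpF (fun M' hM' => ih (insert p F) ?_ M' hM') _ M hM rfl
    rw [compl_insert, card_erase_of_mem hp, hF]
    rfl

/-- The level two congruence subgroup of `GL (g, ℤ)` is generated by the squares of the elementary
matrices and the signs. -/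
theorem level_two (S : Submonoid (Matrix (Fin g) (Fin g) ℤ))
    (hE : ∀ i j, i ≠ j → ∀ k : ℤ, Matrix.transvection i j (2 * k) ∈ S)
    (hD : ∀ i : Fin g, Matrix.diagonal (Function.update (1 : Fin g → ℤ) i (-1)) ∈ S)
    (M : Matrix (Fin g) (Fin g) ℤ) (hdet : IsUnit M.det)
    (h2 : ∀ i j, (2 : ℤ) ∣ M i j - (1 : Matrix (Fin g) (Fin g) ℤ) i j) : M ∈ S :=
  level_all hE hD _ ∅ rfl M ⟨hdet, h2, fun f hf => absurd hf (notMem_empty f),
    fun f hf => absurd hf (notMem_empty f)⟩

end

end Pool.Agent.Work.Hild
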