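import Pool.Agent.Work.MP_f08fab_gt.HRep
import Pool.Agent.Work.MP_f08fab_gt.LevelTwo

/-!
# The Hilden subgroup contains the level two part of the stabiliser of the Lagrangian
-/

set_option autoImplicit false

namespace Pool.Agent.Work.Hild

open Matrix

variable {g : ℕ}

theorem avec_castSucc (i : Fin g) : avec i.castSucc = ((Pi.single i 1, 0) : W g) := by
  unfold avec va
  congr 1
  ext t
  rw [if_neg (by simpa using i.isLt.ne), Pi.single_apply]
  simp only [Fin.val_castSucc, Fin.ext_iff]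

theorem ext_E {φ : W g ≃ₗ[ℤ] W g} {M : Matrix (Fin g) (Fin g) ℤ}
    (h : ∀ i : Fin g, φ (Pi.single i 1, 0) = (M *ᵥ Pi.single i 1, 0)) (x : Fin g → ℤ) :
    φ (x, 0) = (M *ᵥ x, 0) := by
  have h1 : (φ : W g →ₗ[ℤ] W g) ∘ₗ LinearMap.inl ℤ (Fin g → ℤ) (Fin g → ℤ) =
      LinearMap.inl ℤ (Fin g → ℤ) (Fin g → ℤ) ∘ₗ M.mulVecLin := by
    refine LinearMap.pi_ext' fun i => LinearMap.ext_ring ?_
    simpa using h i
  simpa using LinearMap.congr_fun h1 x

/-- the matrices of the action of the Hilden subgroup (level two) on the Lagrangian -/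
def levi (g : ℕ) : Submonoid (Matrix (Fin g) (Fin g) ℤ) where
  carrier := {M | ∃ h ∈ hilden g, Even1 (rho g h) ∧ ∀ x, rho g h (x, 0) = (M *ᵥ x, 0)}
  one_mem' := ⟨1, one_mem _, by rw [map_one]; exact Even1.one, fun x => by
    rw [map_one, one_mulVec]; rfl⟩
  mul_mem' := by
    rintro M N ⟨h, hh, he, hx⟩ ⟨h', hh', he', hx'⟩
    refine ⟨h * h', mul_mem hh hh', by rw [map_mul]; exact he.mul he', fun x => ?_⟩
    rw [map_mul, LinearEquiv.mul_apply, hx', hx, mulVec_mulVec]

theorem transvection_two_mem {i j : Fin g} (hij : i ≠ j) :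
    transvection i j (2 : ℤ) ∈ levi g ∧ transvection i j (-2 : ℤ) ∈ levi g := by
  have hij' : i.castSucc ≠ j.castSucc := fun h => hij (Fin.castSucc_injective _ h)
  have hig : i.castSucc ≠ Fin.last g := (Fin.castSucc_lt_last i).ne
  obtain ⟨h1, hh1, he1, a1, b1, c1⟩ := exists_m hij'
  obtain ⟨h2, hh2, he2, a2, -, c2⟩ := exists_m hig
  have key : ∀ k : Fin g, rho g (h1 * h2) (Pi.single k 1, 0) =
      (Pi.single k 1 + (if k = j then 2 else 0 : ℤ) • Pi.single i 1, 0) := by
    intro k
    rw [← avec_castSucc, map_mul, LinearEquiv.mul_apply]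
    rcases eq_or_ne k i with rfl | hki
    · rw [a2, map_neg, a1, neg_neg, if_neg hij, zero_smul, add_zero, avec_castSucc]
    · have hki' : k.castSucc ≠ i.castSucc := fun h => hki (Fin.castSucc_injective _ h)
      rw [c2 _ hki' (Fin.castSucc_lt_last k).ne]
      rcases eq_or_ne k j with rfl | hkj
      · rw [b1, if_pos rfl, avec_castSucc, avec_castSucc]
        simp
      · have hkj' : k.castSucc ≠ j.castSucc := fun h => hkj (Fin.castSucc_injective _ h)
        rw [c1 _ hki' hkj', if_neg hkj, zero_smul, add_zero, avec_castSucc]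
  have hmem : h1 * h2 ∈ hilden g := mul_mem hh1 hh2
  have heven : Even1 (rho g (h1 * h2)) := by rw [map_mul]; exact he1.mul he2
  have htr : ∀ (c : ℤ) (k : Fin g), transvection i j c *ᵥ Pi.single k 1 =
      Pi.single k 1 + (if k = j then c else 0) • (Pi.single i 1 : Fin g → ℤ) := by
    intro c k
    ext t
    rw [mulVec_single_one]
    simp only [transvection, Matrix.col_apply, Matrix.add_apply, Matrix.one_apply,
      Matrix.single_apply, Pi.add_apply, Pi.smul_apply, smul_eq_mul, Pi.single_apply]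
    rcases eq_or_ne k j with rfl | h1
    · rcases eq_or_ne t i with rfl | h2
      · simp
      · simp [h2, h2.symm]
    · simp [h1, h1.symm]
  constructor
  · refine ⟨h1 * h2, hmem, heven, ext_E fun k => ?_⟩
    rw [key, htr]
  · refine ⟨(h1 * h2)⁻¹, inv_mem hmem, by rw [map_inv]; exact heven.inv, ext_E fun k => ?_⟩
    rw [map_inv]
    have h3 : ∀ z, (rho g (h1 * h2)) z = (Pi.single k 1, 0) →
        (rho g (h1 * h2))⁻¹ (Pi.single k 1, 0) = z := by
      intro z hz
      rw [← hz]
      exact (rho g (h1 * h2)).symm_apply_apply z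
    apply h3
    rw [htr]
    have h4 : ((Pi.single k 1 + (if k = j then -2 else 0 : ℤ) • Pi.single i 1 : Fin g → ℤ),
        (0 : Fin g → ℤ)) = ((Pi.single k 1, 0) : W g) + (if k = j then -2 else 0 : ℤ) •
          ((Pi.single i 1, 0) : W g) := by
      rw [Prod.smul_mk, smul_zero, Prod.mk_add_mk, add_zero]
    rw [h4, map_add, map_smul, key, key, if_neg hij, zero_smul, add_zero, Prod.smul_mk, smul_zero,
      Prod.mk_add_mk, add_zero]
    congr 1
    split_ifs <;> module

theorem transvection_mem {i j : Fin g} (hij : i ≠ j) (k : ℤ) :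
    transvection i j (2 * k) ∈ levi g := by
  have hnat : ∀ n : ℕ, transvection i j (2 * (n : ℤ)) ∈ levi g ∧
      transvection i j (-(2 * (n : ℤ))) ∈ levi g := by
    intro n
    induction n with
    | zero => simp [transvection]
    | succ n ih =>
      obtain ⟨h1, h2⟩ := transvection_two_mem hij
      constructor
      · have := mul_mem ih.1 h1
        rwa [transvection_mul_transvection_same _ _ hij,
          show 2 * (n : ℤ) + 2 = 2 * ((n + 1 : ℕ) : ℤ) by push_cast; ring] at this
      · have := mul_mem ih.2 h2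
        rwa [transvection_mul_transvection_same _ _ hij,
          show -(2 * (n : ℤ)) + -2 = -(2 * ((n + 1 : ℕ) : ℤ)) by push_cast; ring] at this
  obtain ⟨n, rfl | rfl⟩ := k.eq_nat_or_neg
  · exact (hnat n).1
  · rw [mul_neg]; exact (hnat n).2

theorem diagonal_mem (i : Fin g) :
    Matrix.diagonal (Function.update (1 : Fin g → ℤ) i (-1)) ∈ levi g := by
  have hig : i.castSucc ≠ Fin.last g := (Fin.castSucc_lt_last i).ne
  obtain ⟨h2, hh2, he2, a2, -, c2⟩ := exists_m hig
  refine ⟨h2, hh2, he2, ext_E fun k => ?_⟩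
  rw [← avec_castSucc]
  rcases eq_or_ne k i with rfl | hki
  · rw [a2, avec_castSucc]
    ext t
    · simp only [mulVec_diagonal, Prod.fst_neg, Pi.neg_apply, Pi.single_apply]
      by_cases h : t = k
      · subst h; simp
      · simp [h]
    · simp
  · have hki' : k.castSucc ≠ i.castSucc := fun h => hki (Fin.castSucc_injective _ h)
    rw [c2 _ hki' (Fin.castSucc_lt_last k).ne, avec_castSucc]
    ext t
    · simp only [mulVec_diagonal, Pi.single_apply]
      by_cases h : t = k
      · subst h; simp [hki]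
      · simp [h]
    · simp

theorem levi_mem {M : Matrix (Fin g) (Fin g) ℤ} (hdet : IsUnit M.det)
    (h2 : ∀ i j, (2 : ℤ) ∣ M i j - (1 : Matrix (Fin g) (Fin g) ℤ) i j) : M ∈ levi g :=
  level_two (levi g) (fun _ _ hij k => transvection_mem hij k) diagonal_mem M hdet h2

/-- the unipotent maps -/
def uni (S : Matrix (Fin g) (Fin g) ℤ) : W g ≃ₗ[ℤ] W g where
  toFun w := (w.1 + S *ᵥ w.2, w.2)
  map_add' x y := by
    simp only [Prod.fst_add, Prod.snd_add, mulVec_add, Prod.mk_add_mk, Prod.mk.injEq, and_true]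
    abel
  map_smul' c x := by
    simp only [Prod.smul_fst, Prod.smul_snd, mulVec_smul, RingHom.id_apply, Prod.smul_mk,
      smul_add]
  invFun w := (w.1 - S *ᵥ w.2, w.2)
  left_inv x := by simp
  right_inv x := by simp

theorem uni_apply (S : Matrix (Fin g) (Fin g) ℤ) (w : W g) : uni S w = (w.1 + S *ᵥ w.2, w.2) := rfl

theorem uni_mul (S T : Matrix (Fin g) (Fin g) ℤ) : uni S * uni T = uni (T + S) := by
  refine LinearEquiv.ext fun w => ?_
  rw [LinearEquiv.mul_apply, uni_apply, uni_apply, uni_apply, add_mulVec, add_assoc]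

theorem uni_zero : uni (0 : Matrix (Fin g) (Fin g) ℤ) = 1 :=
  LinearEquiv.ext fun w => by rw [uni_apply, zero_mulVec, add_zero]; rfl

theorem uni_inv (S : Matrix (Fin g) (Fin g) ℤ) : (uni S)⁻¹ = uni (-S) := by
  rw [inv_eq_iff_mul_eq_one, uni_mul, neg_add_cancel, uni_zero]

theorem trv_uni (a : Fin g → ℤ) : trv ((a, 0) : W g) = uni (vecMulVec a a) := by
  refine LinearEquiv.ext fun w => ?_
  rw [trv_apply, uni_apply]
  ext t
  · simp only [om, zero_dotProduct, sub_zero, Prod.fst_add, Prod.smul_fst, Pi.add_apply,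
      Pi.smul_apply, smul_eq_mul, vecMulVec_mulVec]
    simp [mul_comm]
  · simp

/-- the symmetric matrices which are realised by the Hilden subgroup -/
def unis (g : ℕ) : AddSubgroup (Matrix (Fin g) (Fin g) ℤ) where
  carrier := {S | ∃ h ∈ hilden g, rho g h = uni S}
  zero_mem' := ⟨1, one_mem _, by rw [map_one, uni_zero]⟩
  add_mem' := by
    rintro S T ⟨h, hh, hS⟩ ⟨h', hh', hT⟩
    exact ⟨h' * h, mul_mem hh' hh, by rw [map_mul, hS, hT, uni_mul]⟩
  neg_mem' := by
    rintro S ⟨h, hh, hS⟩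
    exact ⟨h⁻¹, inv_mem hh, by rw [map_inv, hS, uni_inv]⟩

theorem trv_conj {φ : W g ≃ₗ[ℤ] W g} (h : IsSymp φ) (v : W g) :
    φ * trv v * φ⁻¹ = trv (φ v) := by
  refine LinearEquiv.ext fun x => ?_
  have h2 : φ (φ⁻¹ x) = x := φ.apply_symm_apply x
  have h3 : om v (φ⁻¹ x) = om (φ v) x := by rw [← h v (φ⁻¹ x), h2]
  rw [LinearEquiv.mul_apply, LinearEquiv.mul_apply, trv_apply, trv_apply, map_add, map_smul, h2,
    h3]

theorem trv_avec_mem (t : Fin (g + 1)) : ∃ h ∈ hilden g, rho g h = trv (avec t) := by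
  obtain ⟨p, hp, hpa⟩ := exists_perm (Equiv.swap (0 : Fin (g + 1)) t)
  refine ⟨p * ga 0 * p⁻¹, mul_mem (mul_mem hp ga_zero_mem) (inv_mem hp), ?_⟩
  rw [map_mul, map_mul, map_inv, rho_ga, trv_conj (isSymp_rho p), hpa, Equiv.swap_apply_left]

theorem diag_unis (i : Fin g) : Matrix.single i i (1 : ℤ) ∈ unis g := by
  obtain ⟨h, hh, hr⟩ := trv_avec_mem i.castSucc
  refine ⟨h, hh, ?_⟩
  rw [hr, avec_castSucc, trv_uni]
  congr 1
  ext a b
  simp only [vecMulVec_apply, Pi.single_apply, Matrix.single_apply]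
  rcases eq_or_ne a i with rfl | h1
  · rcases eq_or_ne b a with rfl | h2
    · simp
    · simp [h2, h2.symm]
  · simp [h1, h1.symm]

theorem off_unis {i j : Fin g} (hij : i ≠ j) :
    (2 : ℤ) • (Matrix.single i j (1 : ℤ) + Matrix.single j i 1) ∈ unis g := by
  have hij' : i.castSucc ≠ j.castSucc := fun h => hij (Fin.castSucc_injective _ h)
  obtain ⟨m, hm, -, -, b1, -⟩ := exists_m hij'
  obtain ⟨h, hh, hr⟩ := trv_avec_mem j.castSucc
  have h1 : vecMulVec (Pi.single j 1 + (2 : ℤ) • Pi.single i 1)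
      (Pi.single j 1 + (2 : ℤ) • Pi.single i 1 : Fin g → ℤ) ∈ unis g := by
    refine ⟨m * h * m⁻¹, mul_mem (mul_mem hm hh) (inv_mem hm), ?_⟩
    rw [map_mul, map_mul, map_inv, hr, trv_conj (isSymp_rho m), b1, avec_castSucc, avec_castSucc,
      ← trv_uni]
    congr 1
  have h2 : (2 : ℤ) • (Matrix.single i j (1 : ℤ) + Matrix.single j i 1) =
      vecMulVec (Pi.single j 1 + (2 : ℤ) • Pi.single i 1)
        (Pi.single j 1 + (2 : ℤ) • Pi.single i 1 : Fin g → ℤ) - Matrix.single j j (1 : ℤ) -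
        (4 : ℤ) • Matrix.single i i (1 : ℤ) := by
    ext a b
    simp only [vecMulVec_apply, Pi.single_apply, Matrix.single_apply, Matrix.smul_apply,
      Matrix.add_apply, Matrix.sub_apply, Pi.add_apply, Pi.smul_apply, smul_eq_mul]
    by_cases h1 : a = i <;> by_cases h2 : b = i <;> by_cases h3 : a = j <;> by_cases h4 : b = j <;>
      simp_all [Ne.symm hij, eq_comm]
  rw [h2]
  exact sub_mem (sub_mem h1 (diag_unis j)) ((unis g).zsmul_mem (diag_unis i) 4)

theorem even_unis {S : Matrix (Fin g) (Fin g) ℤ} (hS : Sᵀ = S) (h2 : ∀ i j, (2 : ℤ) ∣ S i j) :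
    S ∈ unis g := by
  choose T hT using h2
  have hsymm : ∀ i j, S j i = S i j := fun i j => congrFun (congrFun hS i) j
  have hdec : S = ∑ i, S i i • Matrix.single i i (1 : ℤ) +
      ∑ p ∈ Finset.univ.filter (fun p : Fin g × Fin g => p.1 < p.2),
        T p.1 p.2 • ((2 : ℤ) • (Matrix.single p.1 p.2 (1 : ℤ) + Matrix.single p.2 p.1 1)) := by
    ext a b
    simp only [Matrix.add_apply, Matrix.sum_apply, Matrix.smul_apply, smul_eq_mul]
    rcases lt_trichotomy a b with h | h | h
    · rw [Finset.sum_eq_zero, Finset.sum_eq_single (a, b)]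
      · simp [Matrix.single_apply, h.ne', hT a b, mul_comm]
      · rintro ⟨c, d⟩ hcd hne
        have hcd' : c < d := (Finset.mem_filter.1 hcd).2
        have h1 : ¬ (c = a ∧ d = b) := fun h => hne (by rw [h.1, h.2])
        have h2 : ¬ (d = a ∧ c = b) := by rintro ⟨rfl, rfl⟩; exact absurd h (not_lt.2 hcd'.le)
        simp [Matrix.single_apply, h1, h2]
      · intro hn
        exact absurd (Finset.mem_filter.2 ⟨Finset.mem_univ (_ : Fin g × Fin g), h⟩) hn
      · intro c _
        have h1 : ¬ (c = a ∧ c = b) := by rintro ⟨rfl, rfl⟩; exact lt_irrefl _ h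
        simp [Matrix.single_apply, h1]
    · subst h
      rw [Finset.sum_eq_single a, Finset.sum_eq_zero]
      · simp [Matrix.single_apply]
      · rintro ⟨c, d⟩ hcd
        have hcd' : c < d := (Finset.mem_filter.1 hcd).2
        have h1 : ¬ (c = a ∧ d = a) := by rintro ⟨rfl, rfl⟩; exact lt_irrefl _ hcd'
        have h2 : ¬ (d = a ∧ c = a) := by rintro ⟨rfl, rfl⟩; exact lt_irrefl _ hcd'
        simp [Matrix.single_apply, h1, h2]
      · intro c _ hc
        simp [Matrix.single_apply, hc]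
      · simp
    · rw [Finset.sum_eq_zero, Finset.sum_eq_single (b, a)]
      · simp [Matrix.single_apply, h.ne', hT b a, hsymm b a, mul_comm]
      · rintro ⟨c, d⟩ hcd hne
        have hcd' : c < d := (Finset.mem_filter.1 hcd).2
        have h1 : ¬ (d = a ∧ c = b) := fun h => hne (by rw [h.1, h.2])
        have h2 : ¬ (c = a ∧ d = b) := by rintro ⟨rfl, rfl⟩; exact absurd h (not_lt.2 hcd'.le)
        simp [Matrix.single_apply, h1, h2]
      · intro hn
        exact absurd (Finset.mem_filter.2 ⟨Finset.mem_univ (_ : Fin g × Fin g), h⟩) hn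
      · intro c _
        have h1 : ¬ (c = a ∧ c = b) := by rintro ⟨rfl, rfl⟩; exact lt_irrefl _ h
        simp [Matrix.single_apply, h1]
  rw [hdec]
  refine add_mem (sum_mem fun i _ => (unis g).zsmul_mem (diag_unis i) _)
    (sum_mem fun p hp => (unis g).zsmul_mem (off_unis ?_) _)
  exact ((Finset.mem_filter.1 hp).2).ne

end Pool.Agent.Work.Hild
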